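import Mathlib
import Pool.Graph.R_seed8.W608.PR.Final
import Pool.Graph.R_pool_sql_team_seeded_c8625f6e.K4H38.CX.Tail2

set_option autoImplicit false

/-!
# Effective bounds in every dimension: definitions and small lemmas

The dimension of the space is `E + 2`, that of the hyperplane is `E + 1`. The notation is that of the
library modules `W608.PR` (`sz`, `Sz`, `Nn`, `dm`, `mx`, `prof`, `cn`, `CE`, `TE`).
-/

namespace Pool.Agent.H55.FE

open Pool.Agent.W608.PR

/-- The constant of the overdetermined side in dimension `n` (it is `K4H38CX.cc n`). -/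
def cN (n : ℕ) : ℕ := (n + 1) / 2 * n ^ (n - 1) + n - 2

/-- If a set of points of multiplicities at most `m` in dimension `E + 1` has `Kc` conditions less than
there are monomials then the conditions are independent. -/
def Kc (E m : ℕ) : ℕ := (m - 1) ^ (E + 1) + (E - 1) * sz E m + 1

/-- The largest excess of a trace on the overdetermined side. -/
def Yc (E m : ℕ) : ℕ := (cN (E + 1) + 1) * sz E m

/-- At most so many simple conditions are used in one step. -/
def Rc (E m : ℕ) : ℕ := Kc E m + sz E m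

/-- The constant part of the excess. -/
def X0 (E m L : ℕ) : ℕ := m * (Nn E L + Yc E m) + cN (E + 2) * Sz E m

/-- The excess which guarantees emptiness in degree `e`. -/
def Xe (E m L e : ℕ) : ℕ := X0 E m L + e * Yc E m

/-- The number of simple points which guarantees emptiness in degree `e`. -/
def Qe (E m L e : ℕ) : ℕ := dm E L + e * Rc E m

/-- Traces: the points outside of `F` are simple or absent, the others have `Kc` conditions less than
there are monomials. -/
def TP (K : Type) [Field K] (E m : ℕ) : Prop :=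
  ∀ (ι : Type) [Fintype ι] (u : ι → ℕ) (F : Finset ι) (e : ℕ), (∀ i, u i ≤ m) →
    (∀ i, i ∉ F → u i ≤ 1) → ∑ i ∈ F, sz E (u i) + Kc E m ≤ Nn E e →
    Nn E e ≤ ∑ i, sz E (u i) → TE E K u e

/-- Traces on the overdetermined side. -/
def TN (K : Type) [Field K] (E m : ℕ) : Prop :=
  ∀ (ι : Type) [Fintype ι] (u : ι → ℕ) (e : ℕ), (∀ i, u i ≤ m) →
    Nn E e + cN (E + 1) * sz E m ≤ ∑ i, sz E (u i) → TE E K u e

/-- The overdetermined side in dimension `E + 2`, points outside of the hyperplane only. -/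
def CN (K : Type) [Field K] (E m : ℕ) : Prop :=
  ∀ (ι : Type) [Fintype ι] [DecidableEq ι] (S : Finset ι) (A : ι → Finset ℕ) (e : ℕ),
    (∀ i, A i ⊆ Finset.Icc 1 m) → (∀ i, i ∉ S → A i = Finset.Icc 1 (mx (A i))) →
    dm E e + cN (E + 2) * Sz E m ≤ ∑ i ∈ Sᶜ, cn E (A i) →
    CE E K (fun i => i ∈ S) (fun i => prof (A i)) e

variable {E : ℕ} {ι : Type} {K : Type} [Field K]

theorem Kc_pos (E m : ℕ) : 1 ≤ Kc E m := by
  unfold Kc
  omega

/-- One step of the Horace method, the trace being given. -/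
theorem stepT [Fintype ι] [DecidableEq ι] [Infinite K] {m : ℕ} {S : Finset ι} {A : ι → Finset ℕ}
    {u : ι → ℕ} {e : ℕ} (hA : ∀ i, A i ⊆ Finset.Icc 1 m)
    (hin : ∀ i, i ∉ S → A i = Finset.Icc 1 (mx (A i)))
    (hu : ∀ i ∈ S, u i = mx (A i)) (hu' : ∀ i, i ∉ S → u i ≤ mx (A i))
    (hT : TE E K u (e + 1))
    (hR : CE E K (fun i => i ∈ S ∪ Finset.univ.filter (fun i => u i ≠ 0))
      (fun i => prof ((A i).erase (u i))) e) :
    CE E K (fun i => i ∈ S) (fun i => prof (A i)) (e + 1) := by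
  refine CE.stepA (m := m) (u := u) hA hin hu hu' hT (hR.mono (fun i hi => ?_) fun i s => le_rfl)
  rw [Finset.mem_union, Finset.mem_filter]
  rcases hi with h | h
  · exact Or.inl h
  · exact Or.inr ⟨Finset.mem_univ _, h⟩

/-- The next trace, simple points being removed completely. -/
theorem T_nextF [Fintype ι] [DecidableEq ι] {S F : Finset ι} {A : ι → Finset ℕ} {u : ι → ℕ} {m : ℕ}
    (hA : ∀ i, A i ⊆ Finset.Icc 1 m) (hSF : S ⊆ F) (hu : ∀ i ∈ F, u i = mx (A i))
    (h1 : ∀ i, i ∉ F → u i ≠ 0 → A i = {1} ∧ u i = 1) :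
    (m + E) * ∑ i ∈ S ∪ Finset.univ.filter (fun i => u i ≠ 0), sz E (mx ((A i).erase (u i))) ≤
      (m - 1) * ∑ i ∈ F, sz E (u i) := by
  have h2 : ∀ i ∈ S ∪ Finset.univ.filter (fun i => u i ≠ 0),
      (m + E) * sz E (mx ((A i).erase (u i))) ≤ if i ∈ F then (m - 1) * sz E (u i) else 0 := by
    intro i hi
    by_cases hF : i ∈ F
    · rw [if_pos hF, hu i hF]
      exact T_reg (hA i)
    · rw [if_neg hF]
      have h3 : u i ≠ 0 := by
        rcases Finset.mem_union.1 hi with h | h
        · exact absurd (hSF h) hF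
        · exact (Finset.mem_filter.1 h).2
      obtain ⟨h4, h5⟩ := h1 i hF h3
      rw [h5, h4, Finset.erase_singleton, mx_empty, sz_zero, mul_zero]
  rw [Finset.mul_sum]
  refine (Finset.sum_le_sum h2).trans ((Finset.sum_le_sum_of_subset (Finset.subset_univ _)).trans ?_)
  rw [Finset.sum_ite_mem, Finset.univ_inter, Finset.mul_sum]

/-- The room for simple points is preserved. -/
theorem room {m e T T' : ℕ} (h : (m + E) * T' ≤ (m - 1) * T) (hT : T + Kc E m ≤ Nn E (e + 1))
    (hm : 1 ≤ m) (hK : 2 * Kc E m ≤ Nn E e) (he : 2 * m ≤ e + 3) : T' + Kc E m ≤ Nn E e := by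
  have h1 := Nn_ratio E e
  obtain ⟨k, rfl⟩ : ∃ k, m = k + 1 := ⟨m - 1, by omega⟩
  rw [Nat.add_sub_cancel] at h
  generalize Kc E (k + 1) = κ at hT hK ⊢
  generalize Nn E e = N at h1 hK ⊢
  generalize Nn E (e + 1) = N' at h1 hT
  obtain ⟨f, hf⟩ : ∃ f, e + 1 = k + f ∧ k ≤ f := ⟨e + 1 - k, by omega, by omega⟩
  obtain ⟨hf1, hf2⟩ := hf
  -- multiply by `(e + 1) * (k + 1 + E)`
  have h2 : (e + 1) * ((k + 1 + E) * (T' + κ)) ≤ (e + 1) * ((k + 1 + E) * N) := by
    have h3 : (e + 1) * ((k + 1 + E) * T') ≤ (e + 1) * (k * T) := Nat.mul_le_mul_left _ h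
    have h4 : k * ((e + 1) * (T + κ)) ≤ k * ((e + 1) * N') :=
      Nat.mul_le_mul_left _ (Nat.mul_le_mul_left _ hT)
    have h5 : k * ((e + 1) * N') = k * (N * (e + E + 2)) := by rw [h1]; ring
    have h6 : (e + 1) * (E + 1) * κ ≤ (E + 1) * f * N := by
      have h8 : (e + 1) * κ ≤ (2 * f) * κ := Nat.mul_le_mul_right _ (by omega)
      have h9 : f * (2 * κ) ≤ f * N := Nat.mul_le_mul_left _ hK
      have h14 : (e + 1) * κ ≤ f * N := by
        refine h8.trans (le_trans (le_of_eq ?_) h9)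
        ring
      calc (e + 1) * (E + 1) * κ = (E + 1) * ((e + 1) * κ) := by ring
        _ ≤ (E + 1) * (f * N) := Nat.mul_le_mul_left _ h14
        _ = (E + 1) * f * N := by ring
    have h10 : (e + 1) * ((k + 1 + E) * N) = k * (N * (e + E + 2)) + (E + 1) * f * N := by
      rw [show e + E + 2 = (e + 1) + (E + 1) by ring, hf1]
      ring
    have h11 : (e + 1) * ((k + 1 + E) * (T' + κ)) =
        (e + 1) * ((k + 1 + E) * T') + k * ((e + 1) * κ) + (e + 1) * (E + 1) * κ := by ring
    have h12 : k * ((e + 1) * (T + κ)) = (e + 1) * (k * T) + k * ((e + 1) * κ) := by ring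
    rw [h11, h10, ← h5]
    omega
  have h13 : 0 < (e + 1) * (k + 1 + E) := by positivity
  refine le_of_mul_le_mul_left (?_ : (e + 1) * (k + 1 + E) * _ ≤ (e + 1) * (k + 1 + E) * _) h13
  rw [mul_assoc, mul_assoc]
  exact h2

end Pool.Agent.H55.FE
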