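import Pool.Agent.H55.FE.Stm
import Pool.Graph.R_pool_sql_team_seeded_f72693b1.W608.PR.Proj

set_option autoImplicit false

/-!
# From the generic dimension to points of affine space
-/

namespace Pool.Agent.H55.FE

open MvPolynomial Module Pool.Agent.H932R5 H350MG
open K4H38FP (KS hv gen_fin mem_KS)

theorem full : S_full := by
  intro E d n w hE hv0
  obtain ⟨Φ, hΦ0, hΦ⟩ := gen_fin (n := E + 1) (r := n) w d
  -- a point off the hypersurface with nonzero first coordinates
  have hne : Φ * ∏ i : Fin n, (X (i, 0) : MvPolynomial (Fin n × Fin (E + 1 + 1)) ℂ) ≠ 0 :=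
    mul_ne_zero hΦ0 (Finset.prod_ne_zero_iff.2 fun i _ => X_ne_zero _)
  obtain ⟨P, hP⟩ : ∃ P : Fin n × Fin (E + 1 + 1) → ℂ,
      eval P (Φ * ∏ i : Fin n, (X (i, 0) : MvPolynomial (Fin n × Fin (E + 1 + 1)) ℂ)) ≠ 0 := by
    by_contra hcon
    push Not at hcon
    exact hne (MvPolynomial.funext fun P => by rw [hcon P, map_zero])
  rw [map_mul, map_prod] at hP
  have hP1 := left_ne_zero_of_mul hP
  have hP2 : ∀ i, P (i, 0) ≠ 0 := by
    intro i
    have := Finset.prod_ne_zero_iff.1 (right_ne_zero_of_mul hP) i (Finset.mem_univ i)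
    rwa [eval_X] at this
  have hfr := hΦ P hP1
  rw [hv0] at hfr
  have hbot := Submodule.finrank_eq_zero.1 hfr
  refine ⟨fun i j => P (i, j.succ) / P (i, 0), fun f hf hfd => ?_⟩
  obtain ⟨F, hF, rfl⟩ := deh_surj (mem_mspan.2 hfd)
  have hFK : F ∈ KS d ((Finset.univ : Finset (Fin n)).val.map
      fun i => ((fun j : Fin (E + 1 + 1) => P (i, j)), w i)) := by
    rw [mem_KS]
    refine ⟨hF, fun c hc => ?_⟩
    obtain ⟨i, _, rfl⟩ := Multiset.mem_map.1 hc
    have h1 : F ∈ (hI (K := ℂ) (E := E) fun j => P (i, j.succ) / P (i, 0)) ^ w i :=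
      (mem_hI_iff hF).2 (mem_Z.1 hf i)
    have h2 : (hI (K := ℂ) (E := E) fun j => P (i, j.succ) / P (i, 0)) =
        pointIdeal (fun j : Fin (E + 1 + 1) => P (i, j)) := by
      ext G
      exact W608.PR.mem_span_iff (fun j : Fin (E + 1 + 1) => P (i, j)) (hP2 i) G
    rw [h2] at h1
    have hv : (fun j : Fin (E + 1 + 1) => P (i, j)) ≠ 0 := fun h => hP2 i (congrFun h 0)
    show (D _ ^ (d + 1 - w i)) F = 0
    by_cases hw : w i ≤ d + 1
    · exact (mem_pow_iff hv hw hF).1 h1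
    · rw [eq_zero_of_mem_pow (by omega : d < w i) h1 hF, map_zero]
  rw [hbot, Submodule.mem_bot] at hFK
  rw [hFK, map_zero]

end Pool.Agent.H55.FE
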