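import Pool.Agent.H55.FE.Full
import Pool.Graph.R_seed8.W608.PR.ToFull

set_option autoImplicit false

/-!
# The overdetermined side in dimension `E + 2`
-/

namespace Pool.Agent.H55.FE

open Pool.Agent.W608.PR Polynomial

theorem ps_surj {E : ℕ} {K : Type} [Field K] (f : Pz E K) :
    ∃ g : MvPolynomial (Fin (E + 2)) K, ps E K g = f := by
  induction f using MvPolynomial.induction_on with
  | C a =>
    induction a using Polynomial.induction_on with
    | C r => exact ⟨MvPolynomial.C r, ps_C r⟩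
    | add p q hp hq =>
      obtain ⟨g, hg⟩ := hp
      obtain ⟨h, hh⟩ := hq
      exact ⟨g + h, by rw [map_add, hg, hh, MvPolynomial.C_add]⟩
    | monomial n r hn =>
      obtain ⟨g, hg⟩ := hn
      refine ⟨g * MvPolynomial.X 0, ?_⟩
      rw [map_mul, hg, ps_X0, ← MvPolynomial.C_mul]
      congr 1
      rw [pow_succ, mul_assoc]
  | add p q hp hq =>
    obtain ⟨g, hg⟩ := hp
    obtain ⟨h, hh⟩ := hq
    exact ⟨g + h, by rw [map_add, hg, hh]⟩
  | mul_X p i hp =>
    obtain ⟨g, hg⟩ := hp
    exact ⟨g * MvPolynomial.X i.succ, by rw [map_mul, hg, ps_X]⟩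

theorem cNN' (hF : S_full) (hN : S_hvn) : S_CN := by
  classical
  intro E m hE ι _ _ S A e hA hin hsum
  obtain ⟨σ⟩ : Nonempty ({i // i ∉ S} ≃ Fin (Fintype.card {i // i ∉ S})) :=
    ⟨Fintype.equivFin _⟩
  obtain ⟨w, hw⟩ : ∃ w : Fin (Fintype.card {i // i ∉ S}) → ℕ,
      w = fun k => mx (A (σ.symm k).1) := ⟨_, rfl⟩
  have h1 : ((Finset.univ.val.map w).map (sz (E + 1))).sum = ∑ i ∈ Sᶜ, cn E (A i) := by
    rw [Multiset.map_map]
    show ∑ k, sz (E + 1) (w k) = _
    have h2 : ∑ k, sz (E + 1) (w k) = ∑ i : {i // i ∉ S}, cn E (A i.1) := by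
      rw [← Equiv.sum_comp σ.symm (fun i : {i // i ∉ S} => cn E (A i.1))]
      refine Finset.sum_congr rfl fun k _ => ?_
      rw [hin _ (σ.symm k).2, cn_Icc, hw]
      rfl
    rw [h2]
    exact (Finset.sum_subtype Sᶜ (fun i => Finset.mem_compl) fun i => cn E (A i)).symm
  have h3 := hN (E + 1) m e (Finset.univ.val.map w) (by omega) (by
    intro v hv
    obtain ⟨k, _, rfl⟩ := Multiset.mem_map.1 hv
    rw [hw]
    exact mx_le (hA _)) (by
    rw [h1]
    exact hsum)
  obtain ⟨x, hx⟩ := hF (E + 1) e _ w (by omega) h3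
  refine ⟨fun i => if h : i ∈ S then 0 else fun j => x (σ ⟨i, h⟩) j.succ,
    fun i => if h : i ∈ S then 0 else x (σ ⟨i, h⟩) 0, fun i hi => dif_pos hi, ?_⟩
  intro f hf hc
  obtain ⟨g, rfl⟩ := ps_surj f
  have hg : g = 0 := by
    refine hx g ?_ fun α hα => ?_
    · rw [H932R5.mem_Z]
      intro k
      rw [H932R5.mem_pt_pow_iff]
      intro a ha
      have hk : (σ.symm k).1 ∉ S := (σ.symm k).2
      have h4 := hc (σ.symm k).1 a.tail (a 0) (by
        show a 0 < prof (A (σ.symm k).1) (Finsupp.degree a.tail)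
        rw [hin _ hk, prof_Icc]
        rw [H932R5.degree_split, hw] at ha
        beta_reduce at ha
        omega)
      beta_reduce at h4
      rw [dif_neg hk, dif_neg hk, Subtype.coe_eta, Equiv.apply_symm_apply, fn_ps,
        Finsupp.cons_tail] at h4
      have h5 : (Fin.cons (x k 0) (fun j => x k j.succ) : Fin (E + 2) → ℂ) = x k :=
        Fin.cons_self_tail (x k)
      rw [h5] at h4
      exact h4
    · have h4 := hf α.tail (α 0) (by
        rw [coeff_ps, Finsupp.cons_tail]
        exact hα)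
      show Finsupp.degree α ≤ e
      rw [H932R5.degree_split]
      have h5 : Finsupp.degree α.tail + α 0 ≤ e := h4
      omega
  rw [hg, map_zero]

/-- with `S_full` proved -/
theorem cNN (hN : S_hvn) : S_CN := cNN' full hN

end Pool.Agent.H55.FE
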