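import Mathlib
import Pool.Agent.H55.FE.Defs

set_option autoImplicit false

/-!
# Statements of the modules (project FE of helper55, problem MP_b56c98_ag)

THEOREM (final). Let `n ≥ 3`, `m ≥ 1`, `n ^ (2 n) * m ^ (2 n - 2) ≤ D ^ (n - 2)`. For all numbers
`r` of general points of `ℙⁿ` with multiplicities at most `m` the Hilbert function is the expected one
in all degrees `d ≥ D`. (Library: `D = (n m) ^ (n (n + 1) / 2)`.)

Every module is a file `Pool/Agent/H55/FE/<Name>.lean` that imports `Pool.Agent.H55.FE.Stm` and proves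
`theorem <name> : S_<name>`. Most of them are adaptations of proofs in the library modules
`Pool/Graph/R_seed8/W608/PR/{Main,Main2,Num2}.lean`.
-/

namespace Pool.Agent.H55.FE

open Pool.Agent.W608.PR

/-- (full) From the library's generic dimension `hv` to points of affine space.
PROOF. `K4H38FP.generally_dim (n := E + 1) (r := n) w d` (used in the library file
`Results/MP_b56c98_ag/ConstantWindow.lean`, lemma `general`): off a hypersurface the space of forms has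
dimension `hv = 0`. The open set `U` is given by polynomials in the homogeneous coordinates (`Generally`,
`IsZariskiOpen` in `Pool.Graph.R_seed8.H350R3.MG`): multiply one with `∏ X (i, 0)` to get points with
`v i 0 ≠ 0`. Then dehomogenize: `H932R5.Vd`, `H932R5.mem_hI_iff`, `H932R5.finrank_Vd_eq` in
`Pool/Graph/R_seed8/H932R5/Homog.lean` and `primeIdeal_mk` in
`Results/MP_b56c98_ag/EffectiveLargeDegrees.lean` (copy it). -/
def S_full : Prop :=
  ∀ (E d n : ℕ) (w : Fin n → ℕ), 1 ≤ E →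
    K4H38FP.hv ℂ (Fin (E + 1 + 1)) d (Finset.univ.val.map w) = 0 →
    H932R5.Full (E := E) ℂ w (H932R5.Td E d)

/-- (hvp) Underdetermined side for `hv`. `s` are the multiplicities of the fat part, `t` those of the
rest, at most one. PROOF. Let `n = E + 1 ≥ 2`. `K4H38CX.vdim` gives
`hv s ≥ choose - ∑ nc ≥ Kc`, so the second alternative of `K4H38CX.mixed` (sort `s` decreasingly) is
impossible, hence `hv s = choose - ∑ nc`. Adding a point: `K4H38FP.sys (n := n) _ d` is a structure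
`Sys` (file K4H38/FP/Seq.lean) with `h0 : h (0 ::ₘ s) = h s`, `h1 0 : h (0 ::ₘ s) = h (1 ::ₘ s) + g 0 s`,
`h2`: `g 0 s ≤ a 0 = 1`, `h6 0`: `g 0 s = 0 → h (0 ::ₘ s) = 0`; so `h (1 ::ₘ s) = h s - 1`. Here
`sz E v = nc (E + 1) v` and `Nn E e = (n + e).choose n`. -/
def S_hvp : Prop :=
  ∀ (E m e : ℕ) (s t : Multiset ℕ), 1 ≤ E → (∀ v ∈ s, v ≤ m) → (∀ v ∈ t, v ≤ 1) →
    (s.map (sz E)).sum + Kc E m ≤ Nn E e → Nn E e ≤ (s.map (sz E)).sum + (t.map (sz E)).sum →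
    K4H38FP.hv ℂ (Fin (E + 1 + 1)) e (s + t) = 0

/-- (hvn) Overdetermined side for `hv`. PROOF. Sort `s` decreasingly, split it as `L ++ l` with
`L` the first `cc n` members (or all of them and `l = []`); if `hv ≠ 0`, `K4H38CX.tail_super` gives
`hv + L.sum + ∑ nc (l) ≤ choose`, so `∑ nc (s) ≤ ∑ nc (L) + ∑ nc (l) < cc n * nc n m + choose`. -/
def S_hvn : Prop :=
  ∀ (E m e : ℕ) (s : Multiset ℕ), 1 ≤ E → (∀ v ∈ s, v ≤ m) →
    Nn E e + cN (E + 1) * sz E m ≤ (s.map (sz E)).sum →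
    K4H38FP.hv ℂ (Fin (E + 1 + 1)) e s = 0

/-- (TP) PROOF. `S_full`, `S_hvp` and an equivalence `ι ≃ Fin (card ι)`; see the library's
`TE.of_G` (file W608/PR/Conf.lean) for the passage from `Full` to `TE`. -/
def S_TP : Prop := ∀ E m : ℕ, 1 ≤ E → TP ℂ E m

/-- (TN) PROOF. `S_full`, `S_hvn`, as `S_TP`. -/
def S_TN : Prop := ∀ E m : ℕ, 1 ≤ E → TN ℂ E m

/-- (CN) PROOF. Dimension `E + 2`: `S_hvn` and `S_full` for `E + 1` and the multiplicities
`mx (A i)`, `i ∉ S` (index set `{i // i ∉ S} ≃ Fin _`), give points of `K ^ (E + 2)` without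
polynomials of degree `≤ e`; here `dm E e = Nn (E + 1) e`, `Sz E m = sz (E + 1) m`,
`cn E (Icc 1 w) = Sz E w`. Position: for `i ∉ S` the coordinate `0` of the point is `c i`, the others are
`p i`; for `i ∈ S` take `c i = 0`, `p i = 0`. Then `Emp`: see the library's `full_of_CE` (file
W608/PR/ToFull.lean) for the translation with `ps`, `coeff_ps`, `fn_ps`; one needs the converse, that is
every `f : Pz E K` is `ps g` with `coeff (Finsupp.cons b a) g = (coeff a f).coeff b`. -/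
def S_CN : Prop := ∀ E m : ℕ, 1 ≤ E → CN ℂ E m

/-- (TL) Library: `TL` in W608/PR/Main.lean, with `hG : G K E m D` replaced by `hP : TP K E m`, the trace
`≤ Nn` replaced by `+ Kc ≤ Nn`, `D` replaced by `L0`. PROOF: the library's, with `stepT` for `stepS`, the
trace `hT` from `hP` for `F = Bᶜ` (the used simple points `B1` fill up exactly `Nn E (e + 1)`), and
`T_nextF` (`F = Bᶜ`) with `room` for the next trace. -/
def S_TL : Prop :=
  ∀ (K : Type) [Field K] [Infinite K] (E m L0 : ℕ), TP K E m → 1 ≤ m → 2 * Kc E m ≤ Nn E L0 →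
    2 * m ≤ L0 + 3 → ∀ (ι : Type) [Fintype ι] [DecidableEq ι] (a e : ℕ) (A : ι → Finset ℕ)
      (B : Finset ι), (∀ i, A i ⊆ Finset.Icc 1 m) →
      (∀ i ∈ B, A i = {1}) → (∀ i, i ∉ B → (A i).card ≤ a) →
      ∑ i ∈ Bᶜ, sz E (mx (A i)) + Kc E m ≤ Nn E e → L0 + a ≤ e → m + a ≤ e + 1 →
      (E + 2) * a ≤ e → dm E e ≤ ∑ i, cn E (A i) →
      CE E K (fun i => i ∈ Bᶜ) (fun i => prof (A i)) e

/-- (E1) Library: `E1` in W608/PR/Main.lean, with `hP` for `hG`, trace `+ Kc ≤ Nn`, and `Rc` simple points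
for each step: `Qe E m L e = dm E L + e * Rc E m`. PROOF: the library's; `J1` is chosen greedily for
`Nn E (e + 1) - Kc E m - T`, then `B1 ⊆ B` has `Nn E (e + 1) - T - ∑ J1 ∈ [Kc, Kc + sz m]` members;
`stepT`, `hP` for `F = S ∪ J1`, `T_nextF` and `room`; if all the points outside fit use `S_TL` with
`a = m`. -/
def S_E1 : Prop :=
  ∀ (K : Type) [Field K] [Infinite K] (E m L0 L : ℕ), TP K E m → 1 ≤ m → 2 * Kc E m ≤ Nn E L0 →
    2 * m ≤ L0 + 3 → L0 + m ≤ L → m + m ≤ L → (E + 2) * m ≤ L →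
    ∀ (ι : Type) [Fintype ι] [DecidableEq ι] (e : ℕ) (S : Finset ι) (A : ι → Finset ℕ)
      (B : Finset ι), (∀ i, A i ⊆ Finset.Icc 1 m) →
      (∀ i, i ∉ S → A i = Finset.Icc 1 (mx (A i))) →
      (∀ i ∈ B, i ∉ S ∧ A i = {1}) → ∑ i ∈ S, sz E (mx (A i)) + Kc E m ≤ Nn E e →
      dm E e ≤ ∑ i, cn E (A i) → Qe E m L e ≤ B.card →
      CE E K (fun i => i ∈ S) (fun i => prof (A i)) e

/-- (E2) Emptiness if there are many more conditions than monomials. PROOF. Induction on `e`. Let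
`T` be the sum over `S`. If `e ≤ L`: `hC`, since `∑ cn` over `S` is at most `m * T ≤
m * (Nn E L + Yc E m)` (`cn_le`, `card_le`). Step from `e` to `e + 1 > L`: let `J = Sᶜ`, `O` the sum of
`sz E (mx (A i))` over `J`, `c = cN (E + 1) * sz E m`. (i) If `T + O < Nn E (e + 1) + c`, then
`∑ cn ≤ m * (T + O)`, but `m * Nn E (e + 1) ≤ dm E (e + 1)` (`dm_ge`) and `m * c ≤ X0`:
contradiction. (ii) Otherwise there is `J1 ⊆ J` with
`Nn E (e + 1) + c ≤ T + ∑ J1 ≤ Nn E (e + 1) + Yc E m`: `J1 = ∅` if already `Nn + c ≤ T`; else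
`J1 = J` if `T + O ≤ Nn + Yc`, else `greedy` for `r = Nn + Yc - T`. `u = mx (A i)` on `S ∪ J1`, `0`
elsewhere; `stepT` with `hN`; `T_next` (`R = ∅`) and `Nn_growth` give the next
`T' ≤ Nn E e + Yc E m` from `(m + E) T' ≤ (m - 1) (Nn E (e + 1) + Yc E m)`; `tot_next` and `dm_succ` for
the excess. -/
def S_E2 : Prop :=
  ∀ (K : Type) [Field K] [Infinite K] (E m L : ℕ), TN K E m → CN K E m → 1 ≤ m → m + m ≤ L →
    (E + 2) * m ≤ L →
    ∀ (ι : Type) [Fintype ι] [DecidableEq ι] (e : ℕ) (S : Finset ι) (A : ι → Finset ℕ),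
      (∀ i, A i ⊆ Finset.Icc 1 m) → (∀ i, i ∉ S → A i = Finset.Icc 1 (mx (A i))) →
      ∑ i ∈ S, sz E (mx (A i)) ≤ Nn E e + Yc E m →
      dm E e + Xe E m L e ≤ ∑ i, cn E (A i) →
      CE E K (fun i => i ∈ S) (fun i => prof (A i)) e

/-- The numerical conditions for the passage from degree `e + 1` to degree `e`. -/
def Cnd (E m L e : ℕ) : Prop :=
  (m - 1) * Nn E (e + 1) + (m + E) * (Rc E m * sz E m + Kc E m + Xe E m L (e + 1)) ≤
    (m + E) * Nn E e ∧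
  2 * m * Nn E (e + 1) + m * (Rc E m * sz E m) ≤ dm E (e + 1) ∧ L ≤ e

/-- (Mk) Library: `Mk` in W608/PR/Main2.lean, with `S_E1`, `S_E2` for `E1`, `E2`. PROOF: the library's;
in a step `J2` has `Rc E m` members, `J1 ⊆ J \ J2` is greedy for `Nn E (e + 1) - Kc E m - T`, `J3 ⊆ J2`
has `Nn E (e + 1) - T - ∑ J1 ∈ [Kc, Rc]` members and `u = 1` there; the trace is `hP` for `F = S ∪ J1`,
the next trace is `T_next` with `R = J3`. For `k = 1`: `CE.exactA`. -/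
def S_Mk : Prop :=
  ∀ (K : Type) [Field K] [Infinite K] (E m L0 L : ℕ), TP K E m → TN K E m → CN K E m → 1 ≤ m →
    2 * Kc E m ≤ Nn E L0 → 2 * m ≤ L0 + 3 → L0 + m ≤ L → m + m ≤ L → (E + 2) * m ≤ L →
    ∀ (ι : Type) [Fintype ι] [DecidableEq ι] (k e : ℕ) (S : Finset ι) (A : ι → Finset ℕ)
      (B : Finset ι), 1 ≤ k →
      (∀ e', e' < e → e ≤ e' + k → Cnd E m L e') → (∀ i, A i ⊆ Finset.Icc 1 m) →
      (∀ i, i ∉ S → A i = Finset.Icc 1 (mx (A i))) →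
      (∀ i ∈ B, i ∈ S ∧ A i = Finset.Icc 1 k) → Qe E m L e ≤ B.card →
      ∑ i ∈ S, sz E (mx (A i)) + Kc E m + Xe E m L e ≤ Nn E e →
      dm E e ≤ ∑ i, cn E (A i) → 1 ≤ e →
      CE E K (fun i => i ∈ S) (fun i => prof (A i)) e

/-- (num) The numerical part, for `n = E + 2`, `L = (2 E + 3) m = (2 n - 1) m`. PROOF (all tested).
`sz E m ≤ m ^ (n-1)`, `Sz E m ≤ m ^ n`, `dm E L ≤ (2 n m) ^ n`, `Nn E L ≤ (2 n m) ^ (n-1)` (library:
W608/PR/Num.lean), `(n-1)! * 2 ^ (n-1) ≤ n ^ (n-1)` (induction, Bernoulli), `Kc ≤ (n-2) m ^ (n-1)`,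
`Rc ≤ (n-1) m ^ (n-1)`, `Yc ≤ b m ^ (n-1)`, `b = cN (n-1) + 1`, `X0 ≤ a m ^ n`,
`a = (2 n) ^ (n-1) + b + cN n`, `(e+1) ^ (n-1) ≤ (n-1)! Nn E e`, `(e+1) ^ n ≤ n! dm E e`. The hypothesis gives
`d ≥ n ^ 2 m ^ 2` and, as `e + 1 > d - m ≥ d (1 - 1/n^2)`, also
`(e+1) ^ (n-2) ≥ n ^ (2n) m ^ (2n-2) / 2`. First part of `Cnd`: from `Nn_ratio`
`(e+1) ((m+E) Nn E e - (m-1) Nn E (e+1)) = (E+1) (e+2-m) Nn E e`, and `2 (e+2-m) ≥ e+1`, so
`Nn E e ≥ 2 m (Rc sz + Kc + Xe (e+1))` is enough; `Nn E e ≥ (e+1) n ^ (2n) m ^ (2n-2) / (2 (n-1)!)`,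
`Xe (e+1) ≤ (e+1) m ^ (n-1) (b + a/n^2)` and `4 (n-1)! (b + a/n^2 + 2) ≤ n ^ (2n)`. Second part:
`dm E (e+1) = Nn E (e+1) (e+1+n)/n` and `e+1+n-2nm ≥ n`. The other three parts in the same way; the
last: `Nn E (2 (n-1) m) ≥ (2 m) ^ (n-1)`. (`2 n m ≤ n^2 m^2` etc. as `n ≥ 3`.) -/
def S_num : Prop :=
  ∀ E m d : ℕ, 1 ≤ E → 1 ≤ m → (E + 2) ^ (2 * (E + 2)) * m ^ (2 * E + 2) ≤ d ^ E →
    1 ≤ d ∧ (∀ e, e < d → d ≤ e + m → Cnd E m ((2 * E + 3) * m) e) ∧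
    m * (Sz E m * Qe E m ((2 * E + 3) * m) d) < dm E d ∧
    Qe E m ((2 * E + 3) * m) d * sz E m + Kc E m + Xe E m ((2 * E + 3) * m) d ≤ Nn E d ∧
    2 * Kc E m ≤ Nn E (2 * (E + 1) * m)

/-- (Gs) PROOF. As the library's `G_succ` (end of W608/PR/Main2.lean) from `S_Mk` and `S_num`. -/
def S_Gs : Prop :=
  ∀ E m D : ℕ, 1 ≤ E → 1 ≤ m → (E + 2) ^ (2 * (E + 2)) * m ^ (2 * E + 2) ≤ D ^ E →
    G ℂ (E + 1) m D

end Pool.Agent.H55.FE
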