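import Mathlib
import Pool.Agent.H55.FE.Stm

set_option autoImplicit false

/-!
# Module Gs
-/

namespace Pool.Agent.H55.FE

open Pool.Agent.W608.PR

theorem gs (hP : S_TP) (hN : S_TN) (hCN : S_CN) (hM : S_Mk) (hnum : S_num) : S_Gs := by
  classical
  intro E m D hE hm hD n w hw d hd htot
  have hDd : (E + 2) ^ (2 * (E + 2)) * m ^ (2 * E + 2) ≤ d ^ E :=
    hD.trans (Nat.pow_le_pow_left hd E)
  obtain ⟨hd1, hC, h4, h5, h6⟩ := hnum E m d hE hm hDd
  have htot' : dm E d ≤ ∑ i, Sz E (w i) := htot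
  obtain ⟨k, hk1, hk2, hk3⟩ := exists_freq (E := E) w hw _ _ h4 htot'
  obtain ⟨B, hB, hBc⟩ := Finset.exists_subset_card_eq hk3
  have hBk : ∀ i ∈ B, w i = k := fun i hi => (Finset.mem_filter.1 (hB hi)).2
  refine full_of_CE ?_
  have hL1 : 2 * m ≤ 2 * (E + 1) * m + 3 := by nlinarith
  have hL2 : 2 * (E + 1) * m + m ≤ (2 * E + 3) * m := by nlinarith
  have hL3 : m + m ≤ (2 * E + 3) * m := by nlinarith
  have hL4 : (E + 2) * m ≤ (2 * E + 3) * m := Nat.mul_le_mul_right _ (by omega)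
  have h7 := hM ℂ E m (2 * (E + 1) * m) ((2 * E + 3) * m) (hP E m hE) (hN E m hE) (hCN E m hE)
    hm h6 hL1 hL2 hL3 hL4 (Fin n) k d B (fun i => Finset.Icc 1 (w i)) B hk1
    (fun e he he' => hC e he (by omega)) (fun i => Finset.Icc_subset_Icc_right (hw i))
    (fun i _ => by rw [mx_Icc]) (fun i hi => ⟨hi, by rw [hBk i hi]⟩) (le_of_eq hBc.symm) ?_ ?_ hd1
  · exact h7.mono (fun i hi => hi.elim) fun i s => le_rfl
  · refine le_trans (Nat.add_le_add_right (Nat.add_le_add_right ?_ _) _) h5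
    calc ∑ i ∈ B, sz E (mx (Finset.Icc 1 (w i))) ≤ ∑ _i ∈ B, sz E m := by
          refine Finset.sum_le_sum fun i _ => sz_mono E ?_
          rw [mx_Icc]
          exact hw i
      _ = Qe E m ((2 * E + 3) * m) d * sz E m := by rw [Finset.sum_const, smul_eq_mul, hBc]
  · refine htot'.trans (le_of_eq (Finset.sum_congr rfl fun i _ => ?_))
    rw [cn_Icc]

end Pool.Agent.H55.FE
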