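import Mathlib
import Pool.Agent.H55.FE.Stm

set_option autoImplicit false

/-!
# The two sides for the generic dimension (modules hvp and hvn)
-/

namespace Pool.Agent.H55.FE

open Pool.Agent.W608.PR

theorem sz_eq_nc (E v : ℕ) : sz E v = K4H38FP.nc (E + 1) v := by
  unfold sz K4H38FP.nc
  congr 1
  omega

theorem Nn_eq_ch (E e : ℕ) : Nn E e = (E + 1 + e).choose (E + 1) := by
  unfold Nn
  congr 1
  omega

theorem map_sz (E : ℕ) (l : List ℕ) :
    ((l : Multiset ℕ).map (sz E)).sum = (l.map (K4H38FP.nc (E + 1))).sum := by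
  rw [Multiset.map_coe, Multiset.sum_coe]
  congr 1
  exact List.map_congr_left fun v _ => sz_eq_nc E v

/-- a multiset as a decreasing list -/
theorem exists_sorted (s : Multiset ℕ) : ∃ l : List ℕ, (l : Multiset ℕ) = s ∧ l.Pairwise (· ≥ ·) := by
  refine ⟨s.sort (· ≥ ·), Multiset.sort_eq _ _, ?_⟩
  exact Multiset.pairwise_sort _ _

/-- adding a point of multiplicity at most one -/
theorem hv_cons_le {n : ℕ} (hn : 1 ≤ n) (d v : ℕ) (hv : v ≤ 1) (s : Multiset ℕ) :
    K4H38FP.hv ℂ (Fin (n + 1)) d (v ::ₘ s) ≤ K4H38FP.hv ℂ (Fin (n + 1)) d s - v := by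
  have S := K4H38FP.sys (n := n) hn d
  rcases Nat.eq_zero_or_pos v with h | h
  · subst h
    rw [S.h0]
    omega
  · have h1 : v = 1 := by omega
    subst h1
    have h2 := S.h1 0 (Nat.zero_le _) s
    rw [S.h0, zero_add] at h2
    by_cases h3 : K4H38FP.gk ℂ (Fin (n + 1)) d 0 s = 0
    · have h4 := S.h6 0 (Nat.zero_le _) s h3
      rw [S.h0] at h4
      omega
    · omega

theorem hv_add_le {n : ℕ} (hn : 1 ≤ n) (d : ℕ) (s t : Multiset ℕ) (ht : ∀ v ∈ t, v ≤ 1) :
    K4H38FP.hv ℂ (Fin (n + 1)) d (s + t) ≤ K4H38FP.hv ℂ (Fin (n + 1)) d s - t.sum := by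
  induction t using Multiset.induction_on with
  | empty =>
    rw [add_zero, Multiset.sum_zero]
    omega
  | cons v t ih =>
    have h1 := ih fun w hw => ht w (Multiset.mem_cons_of_mem hw)
    have h2 := hv_cons_le hn d v (ht v (Multiset.mem_cons_self v t)) (s + t)
    rw [Multiset.add_cons, Multiset.sum_cons]
    omega

theorem sum_sz_simple (E : ℕ) (t : Multiset ℕ) (ht : ∀ v ∈ t, v ≤ 1) :
    (t.map (sz E)).sum = t.sum := by
  induction t using Multiset.induction_on with
  | empty => simp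
  | cons v t ih =>
    rw [Multiset.map_cons, Multiset.sum_cons, Multiset.sum_cons,
      ih fun w hw => ht w (Multiset.mem_cons_of_mem hw)]
    congr 1
    have h1 := ht v (Multiset.mem_cons_self v t)
    rcases Nat.eq_zero_or_pos v with h | h
    · rw [h, sz_zero]
    · have h2 : v = 1 := by omega
      rw [h2, sz_one]

theorem hvp : S_hvp := by
  intro E m e s t hE hs ht h1 h2
  obtain ⟨l, rfl, hl⟩ := exists_sorted s
  rw [map_sz] at h1 h2
  rw [sum_sz_simple E t ht] at h2
  have h3 := K4H38CX.vdim (n := E + 1) (by omega) e l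
  have h4 := K4H38CX.mixed (n := E + 1) (by omega) e m l hl (fun v hv => hs v (by simpa using hv))
  have h5 := hv_add_le (n := E + 1) (by omega) e (l : Multiset ℕ) t ht
  rw [Nn_eq_ch] at h1 h2
  have h6 : Kc E m = (m - 1) ^ (E + 1) + (E + 1 - 2) * K4H38FP.nc (E + 1) m + 1 := by
    unfold Kc
    rw [sz_eq_nc]
    rfl
  rw [h6] at h1
  rcases h4 with h4 | ⟨-, h4⟩
  · omega
  · exfalso
    omega

theorem hvn : S_hvn := by
  intro E m e s hE hs h1
  obtain ⟨l, rfl, hl⟩ := exists_sorted s
  rw [map_sz] at h1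
  by_contra h0
  rw [Nn_eq_ch, sz_eq_nc] at h1
  have hcc : cN (E + 1) = K4H38CX.cc (E + 1) := rfl
  rw [hcc] at h1
  generalize hcd : K4H38CX.cc (E + 1) = c at h1
  have hsplit : l.take c ++ l.drop c = l := List.take_append_drop c l
  have hlen : K4H38CX.cc (E + 1) ≤ (l.take c).length ∨ l.drop c = [] := by
    rw [hcd, List.length_take]
    rcases Nat.lt_or_ge l.length c with h | h
    · exact Or.inr (List.drop_eq_nil_of_le h.le)
    · exact Or.inl (by omega)
  have h2 := (K4H38CX.tail_super (n := E + 1) (by omega) e (L := l.take c) (l := l.drop c)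
    (by rw [hsplit]; exact hl) hlen (by rw [hsplit]; exact h0)).2
  rw [hsplit] at h2
  have h3 : (l.map (K4H38FP.nc (E + 1))).sum =
      ((l.take c).map (K4H38FP.nc (E + 1))).sum + ((l.drop c).map (K4H38FP.nc (E + 1))).sum := by
    rw [← List.sum_append, ← List.map_append, hsplit]
  have h4 : ((l.take c).map (K4H38FP.nc (E + 1))).sum ≤ c * K4H38FP.nc (E + 1) m := by
    have h5 : ∀ x ∈ (l.take c).map (K4H38FP.nc (E + 1)), x ≤ K4H38FP.nc (E + 1) m := by
      intro x hx
      obtain ⟨v, hv, rfl⟩ := List.mem_map.1 hx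
      exact (K4H38FP.sys (n := E + 1) (by omega) e).N_mono
        (hs v (by simpa using List.mem_of_mem_take hv))
    have h6 := List.sum_le_card_nsmul _ _ h5
    rw [List.length_map, List.length_take, smul_eq_mul] at h6
    exact h6.trans (Nat.mul_le_mul_right _ (Nat.min_le_left _ _))
  omega

end Pool.Agent.H55.FE
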