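import Pool.Agent.H55.FE.Stm

set_option autoImplicit false

/-! Project FE (helper55): the numerical part -/

namespace Pool.Agent.H55.FE

open Pool.Agent.W608.PR

theorem fact_pow {N : ℕ} (hN : 1 ≤ N) : N.factorial * 2 ^ N ≤ (N + 1) ^ N := by
  induction N, hN using Nat.le_induction with
  | base => decide
  | succ N hN ih =>
    rw [Nat.factorial_succ]
    calc (N + 1) * N.factorial * 2 ^ (N + 1) = 2 * (N + 1) * (N.factorial * 2 ^ N) := by ring
      _ ≤ 2 * (N + 1) * (N + 1) ^ N := Nat.mul_le_mul_left _ ih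
      _ = 2 * (N + 1) ^ (N + 1) := by ring
      _ ≤ (N + 1 + 1) ^ (N + 1) := two_pow_le le_rfl (by omega)

theorem cN_le {k : ℕ} (hk : 2 ≤ k) : 2 * cN k + 4 ≤ (k + 1) * k ^ (k - 1) + 2 * k := by
  unfold cN
  have h1 : 2 * ((k + 1) / 2 * k ^ (k - 1)) ≤ (k + 1) * k ^ (k - 1) := by
    rw [← mul_assoc]
    exact Nat.mul_le_mul_right _ (Nat.mul_div_le _ _)
  omega

theorem others {E : ℕ} (hE : 1 ≤ E) :
    2 + 2 * (cN (E + 1) + 1) + cN (E + 2) ≤ (E + 2) ^ (E + 2) := by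
  rcases Nat.eq_or_lt_of_le hE with h | h
  · subst h
    decide
  · obtain ⟨n, hn⟩ : ∃ n, n = E + 2 := ⟨_, rfl⟩
    have hn4 : 4 ≤ n := by omega
    have h1 := cN_le (k := E + 1) (by omega)
    have h2 := cN_le (k := E + 2) (by omega)
    rw [show E + 1 - 1 = E by omega] at h1
    rw [show E + 2 - 1 = E + 1 by omega] at h2
    have h3 : (E + 1 + 1) * (E + 1) ^ E ≤ (E + 2) ^ (E + 1) := by
      rw [pow_succ, mul_comm]
      exact Nat.mul_le_mul (Nat.pow_le_pow_left (by omega) _) (by omega)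
    have h4 : 16 * (E + 2) ≤ (E + 2) ^ (E + 1) := by
      calc 16 * (E + 2) ≤ (E + 2) ^ 2 * (E + 2) := by
            apply Nat.mul_le_mul_right
            nlinarith
        _ = (E + 2) ^ 3 := by ring
        _ ≤ (E + 2) ^ (E + 1) := Nat.pow_le_pow_right (by omega) (by omega)
    have h5 : (E + 2) ^ (E + 2) = (E + 2) * (E + 2) ^ (E + 1) := by rw [pow_succ]; ring
    rw [h5]
    generalize (E + 2) ^ (E + 1) = Q at *
    have h6 : (E + 2 + 1) * Q = (E + 2) * Q + Q := by ring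
    have h7 : 4 * Q ≤ (E + 2) * Q := Nat.mul_le_mul_right _ (by omega)
    omega

/-- the constant -/
def aE (E : ℕ) : ℕ := (2 * (E + 2)) ^ (E + 1) + (cN (E + 1) + 1) + cN (E + 2)

theorem C1 {E : ℕ} (hE : 1 ≤ E) :
    4 * (E + 1).factorial * (2 + aE E + (cN (E + 1) + 1)) ≤ (E + 2) ^ (2 * (E + 2)) := by
  have h1 := fact_pow (N := E + 1) (by omega)
  have h2 := others hE
  have h3 : 2 + aE E + (cN (E + 1) + 1) ≤ (2 * (E + 2)) ^ (E + 1) + (E + 2) ^ (E + 2) := by
    unfold aE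
    omega
  rw [show E + 1 + 1 = E + 2 by ring] at h1
  set n := E + 2 with hn
  have hn3 : 3 ≤ n := by omega
  set F := (E + 1).factorial
  have h4 : 4 ≤ 2 ^ (E + 1) := by
    calc 4 = 2 ^ 2 := by norm_num
      _ ≤ 2 ^ (E + 1) := Nat.pow_le_pow_right (by norm_num) (by omega)
  calc 4 * F * (2 + aE E + (cN (E + 1) + 1)) ≤ 4 * F * ((2 * n) ^ (E + 1) + n ^ (E + 2)) :=
        Nat.mul_le_mul_left _ h3
    _ = 4 * (F * 2 ^ (E + 1)) * n ^ (E + 1) + F * 4 * n ^ (E + 2) := by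
        rw [mul_pow]
        ring
    _ ≤ 4 * n ^ (E + 1) * n ^ (E + 1) + F * 2 ^ (E + 1) * n ^ (E + 2) := by
        apply Nat.add_le_add
        · exact Nat.mul_le_mul_right _ (Nat.mul_le_mul_left _ h1)
        · exact Nat.mul_le_mul_right _ (Nat.mul_le_mul_left _ h4)
    _ ≤ 4 * n ^ (E + 1) * n ^ (E + 1) + n ^ (E + 1) * n ^ (E + 2) :=
        Nat.add_le_add_left (Nat.mul_le_mul_right _ h1) _
    _ = (4 + n) * n ^ (2 * (E + 1)) := by
        rw [show n ^ (E + 2) = n * n ^ (E + 1) by rw [pow_succ]; ring, two_mul, pow_add]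
        ring
    _ ≤ n ^ 2 * n ^ (2 * (E + 1)) := by
        apply Nat.mul_le_mul_right
        nlinarith
    _ = n ^ (2 * n) := by
        rw [← pow_add, hn]
        congr 1
        ring

theorem C2 {E : ℕ} (hE : 1 ≤ E) :
    (E + 2).factorial * ((2 * (E + 2)) ^ (E + 2) + (E + 1)) ≤
      (E + 2) ^ 2 * (E + 2) ^ (2 * (E + 2)) := by
  have h1 := fact_pow (N := E + 1) (by omega)
  have h2 : (E + 1).factorial ≤ (E + 2) ^ (E + 1) :=
    (Nat.le_mul_of_pos_right _ (by positivity)).trans h1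
  rw [show E + 1 + 1 = E + 2 by ring] at h1
  rw [Nat.factorial_succ (E + 1), show E + 1 + 1 = E + 2 by ring]
  set n := E + 2 with hn
  have hn3 : 3 ≤ n := by omega
  set F := (E + 1).factorial
  calc n * F * ((2 * n) ^ (E + 2) + (E + 1))
      = 2 * n * (F * 2 ^ (E + 1)) * n ^ (E + 2) + n * F * (E + 1) := by
        rw [mul_pow, pow_succ 2]
        ring
    _ ≤ 2 * n * n ^ (E + 1) * n ^ (E + 2) + n * n ^ (E + 1) * n := by
        apply Nat.add_le_add
        · exact Nat.mul_le_mul_right _ (Nat.mul_le_mul_left _ h1)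
        · exact Nat.mul_le_mul (Nat.mul_le_mul_left _ h2) (by omega)
    _ = 2 * n ^ (2 * n) + n ^ (E + 3) := by
        have e1 : n ^ (2 * n) = n * n ^ (E + 1) * n ^ (E + 2) := by
          rw [← pow_succ', ← pow_add]
          congr 1
          omega
        rw [e1]
        ring
    _ ≤ 2 * n ^ (2 * n) + n ^ (2 * n) :=
        Nat.add_le_add_left (Nat.pow_le_pow_right (by omega) (by omega)) _
    _ = 3 * n ^ (2 * n) := by ring
    _ ≤ n ^ 2 * n ^ (2 * n) := by
        apply Nat.mul_le_mul_right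
        nlinarith

/-! ### bounds of the quantities -/

section

variable {E m : ℕ} (hE : 1 ≤ E) (hm : 1 ≤ m)

include hE hm

theorem Kc_le : Kc E m ≤ E * m ^ (E + 1) := by
  unfold Kc
  have h1 := sz_le_pow E m
  have h2 : (m - 1) ^ (E + 1) + 1 ≤ m ^ (E + 1) := by
    have : (m - 1) ^ (E + 1) < m ^ (E + 1) := Nat.pow_lt_pow_left (by omega) (by omega)
    omega
  have h3 : (E - 1) * sz E m ≤ (E - 1) * m ^ (E + 1) := Nat.mul_le_mul_left _ h1
  have h4 : E * m ^ (E + 1) = (E - 1) * m ^ (E + 1) + m ^ (E + 1) := by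
    obtain ⟨k, rfl⟩ : ∃ k, E = k + 1 := ⟨E - 1, by omega⟩
    rw [Nat.add_sub_cancel]
    ring
  omega

theorem Rc_le : Rc E m ≤ (E + 1) * m ^ (E + 1) := by
  unfold Rc
  have h1 := Kc_le hE hm
  have h2 := sz_le_pow E m
  calc Kc E m + sz E m ≤ E * m ^ (E + 1) + m ^ (E + 1) := Nat.add_le_add h1 h2
    _ = _ := by ring

omit hE hm in
theorem Yc_le : Yc E m ≤ (cN (E + 1) + 1) * m ^ (E + 1) := by
  unfold Yc
  exact Nat.mul_le_mul_left _ (sz_le_pow E m)

omit hE in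
theorem L_le : (2 * E + 3) * m + 1 ≤ 2 * (E + 2) * m := by
  nlinarith

omit hE in
theorem NnL_le : Nn E ((2 * E + 3) * m) ≤ (2 * (E + 2)) ^ (E + 1) * m ^ (E + 1) := by
  have h1 : Nn E ((2 * E + 3) * m) ≤ ((2 * E + 3) * m + 1) ^ (E + 1) := by
    have h := choose_le_pow' ((2 * E + 3) * m + 1) E
    rw [show (2 * E + 3) * m + 1 + E = (2 * E + 3) * m + E + 1 by ring] at h
    exact h
  refine h1.trans ?_
  rw [← mul_pow]
  exact Nat.pow_le_pow_left (L_le hm) _

omit hE in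
theorem dmL_le : dm E ((2 * E + 3) * m) ≤ (2 * (E + 2)) ^ (E + 2) * (m * m ^ (E + 1)) := by
  refine (dm_le_pow E _).trans ?_
  have h1 := Nat.pow_le_pow_left (L_le (E := E) hm) (E + 2)
  refine h1.trans (le_of_eq ?_)
  rw [mul_pow, pow_succ m (E + 1)]
  ring

omit hE in
theorem X0_le : X0 E m ((2 * E + 3) * m) ≤ aE E * (m * m ^ (E + 1)) := by
  unfold X0 aE
  have h1 := NnL_le (E := E) hm
  have h2 := Yc_le (E := E) (m := m)
  have h3 := Sz_le_pow E m
  calc m * (Nn E ((2 * E + 3) * m) + Yc E m) + cN (E + 2) * Sz E m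
      ≤ m * ((2 * (E + 2)) ^ (E + 1) * m ^ (E + 1) + (cN (E + 1) + 1) * m ^ (E + 1)) +
        cN (E + 2) * m ^ (E + 2) :=
        Nat.add_le_add (Nat.mul_le_mul_left _ (Nat.add_le_add h1 h2)) (Nat.mul_le_mul_left _ h3)
    _ = _ := by
        rw [pow_succ m (E + 1)]
        ring

end

/-! ### the lower bound of `e` -/

theorem d_ge {E m d : ℕ} (hm : 1 ≤ m)
    (hd : (E + 2) ^ (2 * (E + 2)) * m ^ (2 * E + 2) ≤ d ^ E) : (E + 2) ^ 2 * m ^ 2 ≤ d := by
  by_contra hcon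
  push Not at hcon
  have h1 : d ^ E ≤ ((E + 2) ^ 2 * m ^ 2) ^ E := Nat.pow_le_pow_left hcon.le _
  have h2 : ((E + 2) ^ 2 * m ^ 2) ^ E < (E + 2) ^ (2 * (E + 2)) * m ^ (2 * E + 2) := by
    have e1 : ((E + 2) ^ 2 * m ^ 2) ^ E = (E + 2) ^ (2 * E) * m ^ (2 * E) := by
      rw [mul_pow, ← pow_mul, ← pow_mul]
    rw [e1]
    apply Nat.mul_lt_mul_of_lt_of_le
    · exact Nat.pow_lt_pow_right (by omega) (by omega)
    · exact Nat.pow_le_pow_right hm (by omega)
    · positivity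
  omega

theorem half {E m d e : ℕ} (h1 : (E + 2) ^ 2 * m ≤ d) (he : d ≤ e + m) :
    d ^ E ≤ 2 * (e + 1) ^ E := by
  have hE0 : (0 : ℝ) ≤ E := Nat.cast_nonneg E
  have hq : (0 : ℝ) < ((E : ℝ) + 2) ^ 2 := by positivity
  have hq1 : 1 / ((E : ℝ) + 2) ^ 2 ≤ 1 := by
    rw [div_le_one hq]
    nlinarith
  have key : (1 : ℝ) / 2 ≤ (1 + -(1 / ((E : ℝ) + 2) ^ 2)) ^ E := by
    have h2 := one_add_mul_le_pow (a := -(1 / ((E : ℝ) + 2) ^ 2)) (by linarith) E
    have h3 : (E : ℝ) * (1 / ((E : ℝ) + 2) ^ 2) ≤ 1 / 2 := by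
      rw [mul_one_div, div_le_div_iff₀ hq (by norm_num)]
      nlinarith
    linarith
  have t : (d : ℝ) * (1 + -(1 / ((E : ℝ) + 2) ^ 2)) ≤ (e : ℝ) + 1 := by
    have h2 : ((E : ℝ) + 2) ^ 2 * m ≤ d := by exact_mod_cast h1
    have h3 : (d : ℝ) ≤ e + m := by exact_mod_cast he
    have h4 : (m : ℝ) ≤ d * (1 / ((E : ℝ) + 2) ^ 2) := by
      rw [mul_one_div, le_div_iff₀ hq]
      linarith
    have h5 : (d : ℝ) * (1 + -(1 / ((E : ℝ) + 2) ^ 2)) = d - d * (1 / ((E : ℝ) + 2) ^ 2) := by ring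
    linarith
  have h6 : (d : ℝ) ^ E * (1 / 2) ≤ ((e : ℝ) + 1) ^ E := by
    calc (d : ℝ) ^ E * (1 / 2) ≤ (d : ℝ) ^ E * (1 + -(1 / ((E : ℝ) + 2) ^ 2)) ^ E :=
          mul_le_mul_of_nonneg_left key (by positivity)
      _ = ((d : ℝ) * (1 + -(1 / ((E : ℝ) + 2) ^ 2))) ^ E := by rw [mul_pow]
      _ ≤ ((e : ℝ) + 1) ^ E := pow_le_pow_left₀ (by
          apply mul_nonneg (Nat.cast_nonneg _)
          linarith) t E
  have h7 : (d : ℝ) ^ E ≤ 2 * ((e : ℝ) + 1) ^ E := by linarith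
  exact_mod_cast h7

/-! ### the conditions -/

theorem main_le {E m x : ℕ} (hE : 1 ≤ E) (hm : 1 ≤ m) (hx1 : (E + 1) * m ≤ x) (hx2 : m ^ 2 ≤ x) :
    m * (Rc E m * sz E m + Kc E m + (X0 E m ((2 * E + 3) * m) + x * Yc E m)) ≤
      (2 + aE E + (cN (E + 1) + 1)) * (x * (m ^ (E + 1) * m ^ (E + 1))) := by
  have hP1 : 1 ≤ m ^ (E + 1) := Nat.one_le_pow _ _ hm
  have hPm : m ≤ m ^ (E + 1) := by
    calc m = m ^ 1 := (pow_one m).symm
      _ ≤ m ^ (E + 1) := Nat.pow_le_pow_right hm (by omega)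
  have hs := sz_le_pow E m
  have hK := Kc_le hE hm
  have hR := Rc_le hE hm
  have hY := Yc_le (E := E) (m := m)
  have hX := X0_le (E := E) hm
  set P := m ^ (E + 1) with hP
  have a1 : m * (Rc E m * sz E m) ≤ x * (P * P) := by
    calc m * (Rc E m * sz E m) ≤ m * ((E + 1) * P * P) :=
          Nat.mul_le_mul_left _ (Nat.mul_le_mul hR hs)
      _ = (E + 1) * m * (P * P) := by ring
      _ ≤ x * (P * P) := Nat.mul_le_mul_right _ hx1
  have a2 : m * Kc E m ≤ x * (P * P) := by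
    calc m * Kc E m ≤ m * (E * P) := Nat.mul_le_mul_left _ hK
      _ = E * m * (P * 1) := by ring
      _ ≤ (E + 1) * m * (P * P) := Nat.mul_le_mul (Nat.mul_le_mul_right _ (by omega))
          (Nat.mul_le_mul_left _ hP1)
      _ ≤ x * (P * P) := Nat.mul_le_mul_right _ hx1
  have a3 : m * X0 E m ((2 * E + 3) * m) ≤ aE E * (x * (P * P)) := by
    calc m * X0 E m ((2 * E + 3) * m) ≤ m * (aE E * (m * P)) := Nat.mul_le_mul_left _ hX
      _ = aE E * (m ^ 2 * (P * 1)) := by ring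
      _ ≤ aE E * (x * (P * P)) :=
          Nat.mul_le_mul_left _ (Nat.mul_le_mul hx2 (Nat.mul_le_mul_left _ hP1))
  have a4 : m * (x * Yc E m) ≤ (cN (E + 1) + 1) * (x * (P * P)) := by
    calc m * (x * Yc E m) ≤ P * (x * ((cN (E + 1) + 1) * P)) :=
          Nat.mul_le_mul hPm (Nat.mul_le_mul_left _ hY)
      _ = _ := by ring
  calc m * (Rc E m * sz E m + Kc E m + (X0 E m ((2 * E + 3) * m) + x * Yc E m))
      = m * (Rc E m * sz E m) + m * Kc E m + (m * X0 E m ((2 * E + 3) * m) + m * (x * Yc E m)) := by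
        ring
    _ ≤ x * (P * P) + x * (P * P) + (aE E * (x * (P * P)) + (cN (E + 1) + 1) * (x * (P * P))) :=
        Nat.add_le_add (Nat.add_le_add a1 a2) (Nat.add_le_add a3 a4)
    _ = _ := by ring

theorem stepN {E m e Z : ℕ} (hm : 1 ≤ m) (he : 2 * m ≤ e + 3) (hZ : 2 * (m * Z) ≤ Nn E e) :
    (m - 1) * Nn E (e + 1) + (m + E) * Z ≤ (m + E) * Nn E e := by
  have h1 := Nn_ratio E e
  obtain ⟨k, rfl⟩ : ∃ k, m = k + 1 := ⟨m - 1, by omega⟩
  rw [Nat.add_sub_cancel]
  generalize Nn E e = N at *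
  generalize Nn E (e + 1) = N' at *
  obtain ⟨f, hf1, hf2⟩ : ∃ f, e + 1 = k + f ∧ k ≤ f := ⟨e + 1 - k, by omega, by omega⟩
  refine le_of_mul_le_mul_left (?_ : (e + 1) * _ ≤ (e + 1) * _) (by omega)
  have h2 : (e + 1) * ((k + 1 + E) * Z) ≤ (E + 1) * f * N := by
    have h3 : (k + 1 + E) ≤ (E + 1) * (k + 1) := by nlinarith
    have h4 : (e + 1) ≤ 2 * f := by omega
    calc (e + 1) * ((k + 1 + E) * Z) ≤ (2 * f) * ((E + 1) * (k + 1) * Z) :=
          Nat.mul_le_mul h4 (Nat.mul_le_mul_right _ h3)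
      _ = (E + 1) * f * (2 * ((k + 1) * Z)) := by ring
      _ ≤ (E + 1) * f * N := Nat.mul_le_mul_left _ hZ
  calc (e + 1) * (k * N' + (k + 1 + E) * Z) = k * (N' * (e + 1)) + (e + 1) * ((k + 1 + E) * Z) := by ring
    _ = k * (N * (e + E + 2)) + (e + 1) * ((k + 1 + E) * Z) := by rw [h1]
    _ ≤ k * (N * (e + E + 2)) + (E + 1) * f * N := Nat.add_le_add_left h2 _
    _ = (e + 1) * ((k + 1 + E) * N) := by
        rw [show e + E + 2 = (e + 1) + (E + 1) by ring, hf1]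
        ring

theorem num : S_num := by
  intro E m d hE hm hd
  have hd2 := d_ge hm hd
  have hn9 : 9 ≤ (E + 2) ^ 2 := by nlinarith
  have hm2 : m ≤ m ^ 2 := by nlinarith
  have hd1 : (E + 2) ^ 2 * m ≤ d := (Nat.mul_le_mul_left _ hm2).trans hd2
  have hmd : 9 * m ≤ d := (Nat.mul_le_mul_right _ hn9).trans hd1
  have hm2d : m ^ 2 ≤ d := by nlinarith
  have hdpos : 1 ≤ d := by omega
  have hP1 : 1 ≤ m ^ (E + 1) := Nat.one_le_pow _ _ hm
  have hs := sz_le_pow E m
  have hS := Sz_le_pow E m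
  have hK := Kc_le hE hm
  have hR := Rc_le hE hm
  have hY := Yc_le (E := E) (m := m)
  have hX := X0_le (E := E) hm
  have hdm := dmL_le (E := E) hm
  have hC1 := C1 hE
  have hC2 := C2 hE
  have hTP : (E + 2) ^ (2 * (E + 2)) * (m ^ (E + 1) * m ^ (E + 1)) ≤ d ^ E := by
    rw [← pow_add, show E + 1 + (E + 1) = 2 * E + 2 by ring]
    exact hd
  refine ⟨hdpos, fun e hed hde => ?_, ?_, ?_, ?_⟩
  · -- the conditions
    have hx1 : (E + 1) * m ≤ e + 1 := by
      have h1 : (E + 1) * m + m ≤ (E + 2) ^ 2 * m := by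
        calc (E + 1) * m + m = (E + 2) * m := by ring
          _ ≤ (E + 2) ^ 2 * m := Nat.mul_le_mul_right _ (by nlinarith)
      omega
    have hx2 : m ^ 2 ≤ e + 1 := by
      have h1 : m ^ 2 + m ≤ (E + 2) ^ 2 * m ^ 2 := by nlinarith
      omega
    have hx3 : 2 * (E + 2) * m ≤ e + 1 := by
      have h1 : 2 * (E + 2) * m + m ≤ (E + 2) ^ 2 * m := by
        calc 2 * (E + 2) * m + m = (2 * E + 5) * m := by ring
          _ ≤ (E + 2) ^ 2 * m := Nat.mul_le_mul_right _ (by nlinarith)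
      omega
    have hx4 : (2 * E + 3) * m ≤ e := by
      have h1 : (2 * E + 3) * m + m ≤ (E + 2) ^ 2 * m := by
        calc (2 * E + 3) * m + m = (2 * E + 4) * m := by ring
          _ ≤ (E + 2) ^ 2 * m := Nat.mul_le_mul_right _ (by nlinarith)
      omega
    have hhalf := half hd1 hde
    have hmain := main_le (x := e + 1) hE hm hx1 hx2
    have hNn : 2 * (m * (Rc E m * sz E m + Kc E m + Xe E m ((2 * E + 3) * m) (e + 1))) ≤ Nn E e := by
      unfold Xe
      set Z := m * (Rc E m * sz E m + Kc E m + (X0 E m ((2 * E + 3) * m) + (e + 1) * Yc E m))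
      set P := m ^ (E + 1)
      set F := (E + 1).factorial with hF
      have hF0 : 0 < F := Nat.factorial_pos _
      have h1 : 2 * (F * (2 * Z)) ≤ 2 * (e + 1) ^ (E + 1) := by
        calc 2 * (F * (2 * Z)) = 4 * F * Z := by ring
          _ ≤ 4 * F * ((2 + aE E + (cN (E + 1) + 1)) * ((e + 1) * (P * P))) :=
              Nat.mul_le_mul_left _ hmain
          _ = 4 * F * (2 + aE E + (cN (E + 1) + 1)) * ((e + 1) * (P * P)) := by ring
          _ ≤ (E + 2) ^ (2 * (E + 2)) * ((e + 1) * (P * P)) := Nat.mul_le_mul_right _ hC1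
          _ = (e + 1) * ((E + 2) ^ (2 * (E + 2)) * (P * P)) := by ring
          _ ≤ (e + 1) * (2 * (e + 1) ^ E) := Nat.mul_le_mul_left _ (hTP.trans hhalf)
          _ = 2 * (e + 1) ^ (E + 1) := by ring
      have h2 := Nn_ge_pow E e
      refine le_of_mul_le_mul_left (?_ : F * _ ≤ F * _) hF0
      exact (Nat.le_of_mul_le_mul_left h1 (by norm_num)).trans h2
    refine ⟨stepN hm (by omega) hNn, ?_, hx4⟩
    · have h1 := dm_ratio E (e + 1)
      have h2 : m * (Rc E m * sz E m) ≤ Nn E (e + 1) := by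
        refine le_trans ?_ (Nn_mono E (Nat.le_succ e))
        refine le_trans ?_ hNn
        have : m * (Rc E m * sz E m) ≤
            m * (Rc E m * sz E m + Kc E m + Xe E m ((2 * E + 3) * m) (e + 1)) :=
          Nat.mul_le_mul_left _ (by omega)
        omega
      refine le_of_mul_le_mul_left (?_ : (E + 2) * _ ≤ (E + 2) * _) (by omega)
      calc (E + 2) * (2 * m * Nn E (e + 1) + m * (Rc E m * sz E m))
          = 2 * (E + 2) * m * Nn E (e + 1) + (E + 2) * (m * (Rc E m * sz E m)) := by ring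
        _ ≤ (e + 1) * Nn E (e + 1) + (E + 2) * Nn E (e + 1) :=
            Nat.add_le_add (Nat.mul_le_mul_right _ hx3) (Nat.mul_le_mul_left _ h2)
        _ = dm E (e + 1) * (E + 2) := by rw [h1]; ring
        _ = _ := by ring
  · -- the third part
    have h1 : (d + 1) ^ (E + 2) ≤ (E + 2).factorial * dm E d := Nn_ge_pow (E + 1) d
    have hQ : Qe E m ((2 * E + 3) * m) d ≤
        d * m ^ (E + 1) * ((2 * (E + 2)) ^ (E + 2) + (E + 1)) := by
      unfold Qe
      calc dm E ((2 * E + 3) * m) + d * Rc E m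
          ≤ (2 * (E + 2)) ^ (E + 2) * (m * m ^ (E + 1)) + d * ((E + 1) * m ^ (E + 1)) :=
            Nat.add_le_add hdm (Nat.mul_le_mul_left _ hR)
        _ ≤ (2 * (E + 2)) ^ (E + 2) * (d * m ^ (E + 1)) + d * ((E + 1) * m ^ (E + 1)) :=
            Nat.add_le_add_right (Nat.mul_le_mul_left _ (Nat.mul_le_mul_right _ (by omega))) _
        _ = _ := by ring
    have hmS : m * (Sz E m * Qe E m ((2 * E + 3) * m) d) ≤
        m ^ 2 * (m ^ (E + 1) * m ^ (E + 1)) * d * ((2 * (E + 2)) ^ (E + 2) + (E + 1)) := by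
      calc m * (Sz E m * Qe E m ((2 * E + 3) * m) d)
          ≤ m * (m ^ (E + 2) * (d * m ^ (E + 1) * ((2 * (E + 2)) ^ (E + 2) + (E + 1)))) :=
            Nat.mul_le_mul_left _ (Nat.mul_le_mul hS hQ)
        _ = _ := by
            rw [pow_succ m (E + 1)]
            ring
    have h2 : (E + 2).factorial * (m * (Sz E m * Qe E m ((2 * E + 3) * m) d)) ≤ d ^ (E + 2) := by
      calc (E + 2).factorial * (m * (Sz E m * Qe E m ((2 * E + 3) * m) d))
          ≤ (E + 2).factorial * (m ^ 2 * (m ^ (E + 1) * m ^ (E + 1)) * d *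
            ((2 * (E + 2)) ^ (E + 2) + (E + 1))) := Nat.mul_le_mul_left _ hmS
        _ = (E + 2).factorial * ((2 * (E + 2)) ^ (E + 2) + (E + 1)) *
            (m ^ 2 * (m ^ (E + 1) * m ^ (E + 1)) * d) := by ring
        _ ≤ (E + 2) ^ 2 * (E + 2) ^ (2 * (E + 2)) * (m ^ 2 * (m ^ (E + 1) * m ^ (E + 1)) * d) :=
            Nat.mul_le_mul_right _ hC2
        _ = (E + 2) ^ 2 * m ^ 2 * ((E + 2) ^ (2 * (E + 2)) * (m ^ (E + 1) * m ^ (E + 1))) * d := by
            ring
        _ ≤ d * d ^ E * d := Nat.mul_le_mul_right _ (Nat.mul_le_mul hd2 hTP)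
        _ = d ^ (E + 2) := by ring
    have h3 : d ^ (E + 2) < (d + 1) ^ (E + 2) := Nat.pow_lt_pow_left (by omega) (by omega)
    exact lt_of_mul_lt_mul_left ((h2.trans_lt h3).trans_le h1) (Nat.zero_le _)
  · -- the fourth part
    have h1 := Nn_ge_pow E d
    set P := m ^ (E + 1) with hP
    set F := (E + 1).factorial with hF
    have hF0 : 0 < F := Nat.factorial_pos _
    have hL : Qe E m ((2 * E + 3) * m) d * sz E m + Kc E m + Xe E m ((2 * E + 3) * m) d ≤
        (P * P) * ((2 * (E + 2)) ^ (E + 2) * m + d * (2 * E + 1 + aE E + (cN (E + 1) + 1))) := by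
      have b1 : Qe E m ((2 * E + 3) * m) d * sz E m ≤
          (P * P) * ((2 * (E + 2)) ^ (E + 2) * m + d * (E + 1)) := by
        unfold Qe
        calc (dm E ((2 * E + 3) * m) + d * Rc E m) * sz E m
            ≤ ((2 * (E + 2)) ^ (E + 2) * (m * P) + d * ((E + 1) * P)) * P :=
              Nat.mul_le_mul (Nat.add_le_add hdm (Nat.mul_le_mul_left _ hR)) hs
          _ = _ := by ring
      have b2 : Kc E m ≤ (P * P) * (d * E) := by
        calc Kc E m ≤ E * P := hK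
          _ = (P * 1) * (1 * E) := by ring
          _ ≤ (P * P) * (d * E) :=
              Nat.mul_le_mul (Nat.mul_le_mul_left _ hP1) (Nat.mul_le_mul_right _ hdpos)
      have b3 : Xe E m ((2 * E + 3) * m) d ≤ (P * P) * (d * (aE E + (cN (E + 1) + 1))) := by
        unfold Xe
        calc X0 E m ((2 * E + 3) * m) + d * Yc E m
            ≤ aE E * (m * P) + d * ((cN (E + 1) + 1) * P) :=
              Nat.add_le_add hX (Nat.mul_le_mul_left _ hY)
          _ ≤ aE E * (d * P) + d * ((cN (E + 1) + 1) * P) :=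
              Nat.add_le_add_right (Nat.mul_le_mul_left _ (Nat.mul_le_mul_right _ (by omega))) _
          _ = (P * 1) * (d * (aE E + (cN (E + 1) + 1))) := by ring
          _ ≤ (P * P) * (d * (aE E + (cN (E + 1) + 1))) :=
              Nat.mul_le_mul_right _ (Nat.mul_le_mul_left _ hP1)
      calc _ ≤ (P * P) * ((2 * (E + 2)) ^ (E + 2) * m + d * (E + 1)) + (P * P) * (d * E) +
            (P * P) * (d * (aE E + (cN (E + 1) + 1))) := Nat.add_le_add (Nat.add_le_add b1 b2) b3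
        _ = _ := by ring
    have hfp := fact_pow (N := E + 1) (by omega)
    rw [show E + 1 + 1 = E + 2 by ring] at hfp
    have c1 : 4 * (F * ((2 * (E + 2)) ^ (E + 2) * m)) ≤ (E + 2) ^ (2 * (E + 2)) * d := by
      have e1 : (E + 2) ^ (2 * (E + 2)) = (E + 2) ^ (E + 1) * ((E + 2) * (E + 2) ^ (E + 2)) := by
        rw [← pow_succ', ← pow_add]
        congr 1
        ring
      calc 4 * (F * ((2 * (E + 2)) ^ (E + 2) * m))
          = (F * 2 ^ (E + 1)) * (2 * (E + 2) ^ (E + 2)) * (4 * m) := by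
            rw [mul_pow, pow_succ 2]
            ring
        _ ≤ (E + 2) ^ (E + 1) * ((E + 2) * (E + 2) ^ (E + 2)) * d := by
            apply Nat.mul_le_mul _ (by omega)
            apply Nat.mul_le_mul hfp
            exact Nat.mul_le_mul_right _ (by omega)
        _ = _ := by rw [e1]
    have c2 : 4 * (F * (2 * E + 1 + aE E + (cN (E + 1) + 1))) ≤ 2 * (E + 2) ^ (2 * (E + 2)) := by
      have e1 : 2 * E ≤ aE E := by
        unfold aE
        have : 2 * (E + 2) ≤ (2 * (E + 2)) ^ (E + 1) := by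
          calc 2 * (E + 2) = (2 * (E + 2)) ^ 1 := (pow_one _).symm
            _ ≤ _ := Nat.pow_le_pow_right (by omega) (by omega)
        omega
      have e2 : 2 * E + 1 + aE E + (cN (E + 1) + 1) ≤ 2 * (2 + aE E + (cN (E + 1) + 1)) := by omega
      calc 4 * (F * (2 * E + 1 + aE E + (cN (E + 1) + 1)))
          ≤ 4 * (F * (2 * (2 + aE E + (cN (E + 1) + 1)))) :=
            Nat.mul_le_mul_left _ (Nat.mul_le_mul_left _ e2)
        _ = 2 * (4 * F * (2 + aE E + (cN (E + 1) + 1))) := by ring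
        _ ≤ _ := Nat.mul_le_mul_left _ hC1
    have c3 : F * ((2 * (E + 2)) ^ (E + 2) * m + d * (2 * E + 1 + aE E + (cN (E + 1) + 1))) ≤
        (E + 2) ^ (2 * (E + 2)) * d := by
      have e3 : 4 * (F * ((2 * (E + 2)) ^ (E + 2) * m + d * (2 * E + 1 + aE E + (cN (E + 1) + 1)))) ≤
          3 * ((E + 2) ^ (2 * (E + 2)) * d) := by
        calc _ = 4 * (F * ((2 * (E + 2)) ^ (E + 2) * m)) +
              d * (4 * (F * (2 * E + 1 + aE E + (cN (E + 1) + 1)))) := by ring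
          _ ≤ (E + 2) ^ (2 * (E + 2)) * d + d * (2 * (E + 2) ^ (2 * (E + 2))) :=
              Nat.add_le_add c1 (Nat.mul_le_mul_left _ c2)
          _ = _ := by ring
      omega
    refine le_of_mul_le_mul_left (?_ : F * _ ≤ F * _) hF0
    calc F * (Qe E m ((2 * E + 3) * m) d * sz E m + Kc E m + Xe E m ((2 * E + 3) * m) d)
        ≤ F * ((P * P) * ((2 * (E + 2)) ^ (E + 2) * m + d * (2 * E + 1 + aE E + (cN (E + 1) + 1)))) :=
          Nat.mul_le_mul_left _ hL
      _ = (P * P) * (F * ((2 * (E + 2)) ^ (E + 2) * m + d * (2 * E + 1 + aE E + (cN (E + 1) + 1)))) := by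
          ring
      _ ≤ (P * P) * ((E + 2) ^ (2 * (E + 2)) * d) := Nat.mul_le_mul_left _ c3
      _ = (E + 2) ^ (2 * (E + 2)) * (P * P) * d := by ring
      _ ≤ d ^ E * d := Nat.mul_le_mul_right _ hTP
      _ = d ^ (E + 1) := by ring
      _ ≤ (d + 1) ^ (E + 1) := Nat.pow_le_pow_left (by omega) _
      _ ≤ F * Nn E d := h1
  · -- the fifth part
    have h1 := Nn_ge_pow E (2 * (E + 1) * m)
    refine le_of_mul_le_mul_left (?_ : (E + 1).factorial * _ ≤ (E + 1).factorial * _)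
      (Nat.factorial_pos _)
    refine le_trans ?_ h1
    have h2 : (E + 1).factorial ≤ (E + 1) ^ (E + 1) := Nat.factorial_le_pow (E + 1)
    have h3 : 2 * E ≤ 2 ^ (E + 1) := by
      have : E < 2 ^ E := Nat.lt_two_pow_self
      rw [pow_succ]
      omega
    calc (E + 1).factorial * (2 * Kc E m) ≤ (E + 1) ^ (E + 1) * (2 * (E * m ^ (E + 1))) :=
          Nat.mul_le_mul h2 (Nat.mul_le_mul_left _ hK)
      _ = (E + 1) ^ (E + 1) * m ^ (E + 1) * (2 * E) := by ring
      _ ≤ (E + 1) ^ (E + 1) * m ^ (E + 1) * 2 ^ (E + 1) := Nat.mul_le_mul_left _ h3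
      _ = (2 * (E + 1) * m) ^ (E + 1) := by
          rw [mul_pow, mul_pow]
          ring
      _ ≤ (2 * (E + 1) * m + 1) ^ (E + 1) := Nat.pow_le_pow_left (by omega) _

end Pool.Agent.H55.FE
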