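import Pool.Agent.H55.FE.Full

set_option autoImplicit false

/-!
# Traces
-/

namespace Pool.Agent.H55.FE

open Pool.Agent.W608.PR

/-- from the generic dimension to traces -/
theorem te_of_hv (hF : S_full) {E : ℕ} (hE : 1 ≤ E) {ι : Type} [Fintype ι] (u : ι → ℕ) (e : ℕ)
    (h : K4H38FP.hv ℂ (Fin (E + 1 + 1)) e (Finset.univ.val.map u) = 0) : TE E ℂ u e := by
  classical
  obtain ⟨σ⟩ : Nonempty (ι ≃ Fin (Fintype.card ι)) := ⟨Fintype.equivFin ι⟩
  have h1 : (Finset.univ.val.map fun k => u (σ.symm k)) = Finset.univ.val.map u := by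
    rw [← Multiset.map_univ_val_equiv σ.symm, Multiset.map_map]
    rfl
  obtain ⟨x, hx⟩ := hF E e (Fintype.card ι) (fun k => u (σ.symm k)) hE (by rw [h1]; exact h)
  refine ⟨fun i => x (σ i), fun f hf hc => hx f ?_ hf⟩
  rw [H932R5.mem_Z]
  intro k
  rw [H932R5.mem_pt_pow_iff]
  intro a ha
  have h1 := hc (σ.symm k) a ha
  beta_reduce at h1
  rw [Equiv.apply_symm_apply] at h1
  exact h1

theorem tN' (hF : S_full) (hN : S_hvn) : S_TN := by
  intro E m hE ι _ u e hu h
  refine te_of_hv hF hE u e (hN E m e _ hE ?_ ?_)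
  · intro v hv
    obtain ⟨i, _, rfl⟩ := Multiset.mem_map.1 hv
    exact hu i
  · rw [Multiset.map_map]
    exact h

theorem tP' (hF : S_full) (hP : S_hvp) : S_TP := by
  classical
  intro E m hE ι _ u F e hu hu1 h1 h2
  refine te_of_hv hF hE u e ?_
  have hs : (Finset.univ.val.map u) = F.val.map u + Fᶜ.val.map u := by
    have h3 : (Finset.univ : Finset ι).val = F.val + Fᶜ.val := by
      rw [← Finset.union_compl F, ← Finset.disjUnion_eq_union F Fᶜ disjoint_compl_right]
      rfl
    rw [h3, Multiset.map_add]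
  rw [hs]
  refine hP E m e _ _ hE ?_ ?_ ?_ ?_
  · intro v hv
    obtain ⟨i, _, rfl⟩ := Multiset.mem_map.1 hv
    exact hu i
  · intro v hv
    obtain ⟨i, hi, rfl⟩ := Multiset.mem_map.1 hv
    exact hu1 i (Finset.mem_compl.1 hi)
  · rw [Multiset.map_map]
    exact h1
  · rw [Multiset.map_map, Multiset.map_map]
    refine h2.trans (le_of_eq ?_)
    exact (Finset.sum_add_sum_compl F fun i => sz E (u i)).symm

theorem tN (hN : S_hvn) : S_TN := tN' full hN

theorem tP (hP : S_hvp) : S_TP := tP' full hP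

end Pool.Agent.H55.FE
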