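import Mathlib
import Pool.Agent.H55.FE.Stm

set_option autoImplicit false

/-!
# Module TL
-/

namespace Pool.Agent.H55.FE

open Pool.Agent.W608.PR

theorem tl : S_TL := by
  classical
  intro K _ _ E m L0 hP hm hK hL0 ι _ _ a
  induction a with
  | zero =>
    intro e A B hA hB hB' hT _ _ _ htot
    refine CE.simple (B := B) (fun i hi => ⟨fun h => Finset.mem_compl.1 h hi, ?_⟩) ?_
    · rw [hB i hi, prof_one_zero]
    · refine htot.trans (le_of_eq ?_)
      rw [← Finset.sum_add_sum_compl B, Finset.sum_congr rfl fun i hi => by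
        rw [hB i hi, cn_one], Finset.sum_const, smul_eq_mul, mul_one, Nat.add_eq_left]
      refine Finset.sum_eq_zero fun i hi => ?_
      have h1 := hB' i (Finset.mem_compl.1 hi)
      rw [Nat.le_zero, Finset.card_eq_zero] at h1
      rw [h1]
      exact cn_empty E
  | succ a ih =>
    intro e A B hA hB hB' hT hD hma hE htot
    obtain ⟨e, rfl⟩ : ∃ e', e = e' + 1 := by
      refine ⟨e - 1, ?_⟩
      have : (E + 2) * (a + 1) = (E + 2) * a + E + 2 := by ring
      omega
    obtain ⟨T, hTd⟩ : ∃ T, T = ∑ i ∈ Bᶜ, sz E (mx (A i)) := ⟨_, rfl⟩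
    rw [← hTd] at hT
    have hsplit : ∑ i, cn E (A i) = B.card + ∑ i ∈ Bᶜ, cn E (A i) := by
      rw [← Finset.sum_add_sum_compl B]
      congr 1
      rw [Finset.sum_congr rfl fun i hi => by rw [hB i hi, cn_one], Finset.sum_const,
        smul_eq_mul, mul_one]
    have hr : Nn E (e + 1) - T ≤ B.card := by
      have h1 : ∑ i ∈ Bᶜ, cn E (A i) = T + ∑ i ∈ Bᶜ, cn E ((A i).erase (mx (A i))) := by
        rw [hTd, ← Finset.sum_add_distrib]
        refine Finset.sum_congr rfl fun i _ => ?_
        rw [add_comm]
        exact (cn_erase _ (mx_mem_or _)).symm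
      have h2 : ∑ i ∈ Bᶜ, cn E ((A i).erase (mx (A i))) ≤
          a * ∑ i ∈ Bᶜ, sz E (mx ((A i).erase (mx (A i)))) := by
        rw [Finset.mul_sum]
        refine Finset.sum_le_sum fun i hi => cn_le ?_
        have h3 := hB' i (Finset.mem_compl.1 hi)
        rcases (A i).eq_empty_or_nonempty with h4 | h4
        · rw [h4, Finset.erase_empty, Finset.card_empty]
          exact Nat.zero_le _
        · rw [Finset.card_erase_of_mem (mx_mem h4)]
          omega
      have h3 : ∑ i ∈ Bᶜ, sz E (mx ((A i).erase (mx (A i)))) ≤ Nn E e := by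
        have h4 : (m + E) * ∑ i ∈ Bᶜ, sz E (mx ((A i).erase (mx (A i)))) ≤
            (m - 1) * T := by
          rw [hTd, Finset.mul_sum, Finset.mul_sum]
          exact Finset.sum_le_sum fun i _ => T_reg (hA i)
        have h5 : (m - 1) * T ≤ (m - 1) * Nn E (e + 1) := Nat.mul_le_mul_left _ (by omega)
        have h6 := Nn_growth (E := E) (m := m) (e := e) (by omega)
        exact le_of_mul_le_mul_left (h4.trans (h5.trans h6)) (by omega)
      have h4 : a * Nn E e ≤ dm E e := dm_ge (by
        have : (E + 2) * (a + 1) = (E + 2) * a + E + 2 := by ring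
        omega)
      have h5 : a * ∑ i ∈ Bᶜ, sz E (mx ((A i).erase (mx (A i)))) ≤ a * Nn E e :=
        Nat.mul_le_mul_left _ h3
      have h6 := dm_succ E e
      omega
    obtain ⟨B1, hB1, hB1c⟩ := Finset.exists_subset_card_eq hr
    obtain ⟨u, hu⟩ : ∃ u : ι → ℕ, ∀ i, u i = if i ∈ B then (if i ∈ B1 then 1 else 0)
      else mx (A i) := ⟨_, fun _ => rfl⟩
    have huB1 : ∀ i ∈ B1, u i = 1 := fun i hi => by
      rw [hu, if_pos (hB1 hi), if_pos hi]
    have huB : ∀ i ∈ B, i ∉ B1 → u i = 0 := fun i hi hi' => by
      rw [hu, if_pos hi, if_neg hi']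
    have huS : ∀ i, i ∉ B → u i = mx (A i) := fun i hi => by rw [hu, if_neg hi]
    have hsumF : ∑ i ∈ Bᶜ, sz E (u i) = T := by
      rw [hTd]
      exact Finset.sum_congr rfl fun i hi => by rw [huS i (Finset.mem_compl.1 hi)]
    have hsum : ∑ i, sz E (u i) = Nn E (e + 1) := by
      rw [← Finset.sum_add_sum_compl B]
      have h2 : ∑ i ∈ B, sz E (u i) = B1.card := by
        have h3 : ∀ i ∈ B, sz E (u i) = if i ∈ B1 then 1 else 0 := by
          intro i hi
          by_cases h : i ∈ B1
          · rw [huB1 i h, if_pos h, sz_one]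
          · rw [huB i hi h, if_neg h, sz_zero]
        rw [Finset.sum_congr rfl h3, Finset.sum_ite_mem, Finset.inter_eq_right.2 hB1,
          Finset.sum_const, smul_eq_mul, mul_one]
      rw [hsumF, h2, hB1c]
      omega
    have hset : (B \ B1)ᶜ = Bᶜ ∪ Finset.univ.filter (fun i => u i ≠ 0) := by
      ext i
      rw [Finset.mem_compl, Finset.mem_sdiff, Finset.mem_union, Finset.mem_compl,
        Finset.mem_filter]
      constructor
      · intro h
        by_cases hi : i ∈ B
        · have h1 : i ∈ B1 := by
            by_contra h1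
            exact h ⟨hi, h1⟩
          right
          exact ⟨Finset.mem_univ _, by rw [huB1 i h1]; exact one_ne_zero⟩
        · exact Or.inl hi
      · rintro (h | h) h'
        · exact h h'.1
        · exact h.2 (huB i h'.1 h'.2)
    have hmem : ∀ i, u i ∈ A i ∨ u i = 0 := by
      intro i
      by_cases hi : i ∈ B
      · by_cases h : i ∈ B1
        · left
          rw [huB1 i h, hB i hi]
          exact Finset.mem_singleton_self 1
        · exact Or.inr (huB i hi h)
      · rw [huS i hi]
        exact mx_mem_or _
    have hum : ∀ i, u i ≤ m := by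
      intro i
      rcases hmem i with h | h
      · exact (Finset.mem_Icc.1 (hA i h)).2
      · omega
    have hTE : TE E K u (e + 1) := by
      refine hP ι u Bᶜ (e + 1) hum (fun i hi => ?_) ?_ (le_of_eq hsum.symm)
      · have hiB : i ∈ B := by simpa using hi
        rw [hu, if_pos hiB]
        split_ifs <;> omega
      · rw [hsumF]
        exact hT
    refine stepT (m := m) (u := u) hA (fun i hi => ?_) (fun i hi => huS i (Finset.mem_compl.1 hi))
      (fun i hi => ?_) hTE ?_
    · rw [hB i (by simpa using hi), mx_one, Finset.Icc_self]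
    · have hiB : i ∈ B := by simpa using hi
      rw [hB i hiB, mx_one, hu, if_pos hiB]
      split_ifs <;> omega
    · rw [← hset]
      refine ih e (fun i => (A i).erase (u i)) (B \ B1)
        (fun i => (Finset.erase_subset _ _).trans (hA i)) (fun i hi => ?_) (fun i hi => ?_) ?_
        (by omega) (by omega) ?_ ?_
      · show (A i).erase (u i) = {1}
        rw [Finset.mem_sdiff] at hi
        rw [huB i hi.1 hi.2, erase_zero (hA i), hB i hi.1]
      · show ((A i).erase (u i)).card ≤ a
        rw [Finset.mem_sdiff, not_and, not_not] at hi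
        by_cases hiB : i ∈ B
        · rw [hB i hiB, huB1 i (hi hiB), Finset.erase_singleton, Finset.card_empty]
          exact Nat.zero_le _
        · rw [huS i hiB]
          have h3 := hB' i hiB
          rcases (A i).eq_empty_or_nonempty with h4 | h4
          · rw [h4, Finset.erase_empty, Finset.card_empty]
            exact Nat.zero_le _
          · rw [Finset.card_erase_of_mem (mx_mem h4)]
            omega
      · show ∑ i ∈ (B \ B1)ᶜ, sz E (mx ((A i).erase (u i))) + Kc E m ≤ Nn E e
        rw [hset]
        have h1 := T_nextF (E := E) (S := Bᶜ) (F := Bᶜ) (u := u) (m := m) hA subset_rfl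
          (fun i hi => huS i (Finset.mem_compl.1 hi)) (fun i hi hne => by
            have hiB : i ∈ B := by simpa using hi
            by_cases h : i ∈ B1
            · exact ⟨hB i hiB, huB1 i h⟩
            · exact absurd (huB i hiB h) hne)
        rw [hsumF] at h1
        refine room h1 hT hm (hK.trans (Nn_mono E (by omega))) (by omega)
      · have : (E + 2) * (a + 1) = (E + 2) * a + E + 2 := by ring
        omega
      · have h1 := tot_next (E := E) hmem
        have h2 := dm_succ E e
        show dm E e ≤ ∑ i, cn E ((A i).erase (u i))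
        omega

end Pool.Agent.H55.FE
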