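import Mathlib
import Pool.Graph.R_seed8.W608.PR.Final
import Pool.Graph.R_pool_sql_team_seeded_f72693b1.W608.PR.Proj
import Pool.Agent.H55.FE.Gs
import Pool.Agent.H55.FE.TPN
import Pool.Agent.H55.FE.CNN
import Pool.Agent.H55.FE.Hvp
import Pool.Agent.H55.FE.Tl
import Pool.Agent.H55.FE.E1
import Pool.Agent.H55.FE.E2
import Pool.Agent.H55.FE.Mk
import Pool.Agent.H55.FE.Num

/-!
# The Hilbert function of general fat points: degrees polynomial in the multiplicity

Let `n ≥ 3`, `m ≥ 1` and `n ^ (2 n) * m ^ (2 n - 2) ≤ D ^ (n - 2)`; for example `n = 3` and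
`D = 729 m ^ 4`. For every finite set of general points of `ℙⁿ` with multiplicities `w i ≤ m` the value
of the Hilbert function in the degree `d` is `min (binom (n + d) n) (∑ binom (n + w i - 1) n)`

* for all `d ≥ D`, and
* for all `d ≥ 0`, as soon as `∑ binom (n + w i - 1) n ≥ binom (n + D) n`.

For `w i = m` this is `H_{n,r,m}(d) = min (binom (n + d) n) (r * binom (n + m - 1) n)`.

The proof uses a differential Horace method with respect to one hyperplane. The traces are general fat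
points of the hyperplane; they are controlled in every degree by a bound for the defect of the general
Hilbert function which does not depend on the degree, provided that there are enough simple points
among them. So there is no induction on the dimension.
-/

set_option autoImplicit false

namespace Pool.Agent.Results.MP_b56c98_ag.EffectiveEveryDimension

open MvPolynomial
open scoped LinearAlgebra.Projectivization

/-- The homogeneous prime ideal of a point of `ℙⁿ`: all the polynomials in `x₀, …, xₙ` which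
vanish on the line of `ℂⁿ⁺¹` given by the point. -/
noncomputable def primeIdeal {n : ℕ} (p : ℙ ℂ (Fin (n + 1) → ℂ)) :
    Ideal (MvPolynomial (Fin (n + 1)) ℂ) where
  carrier := {F | ∀ w ∈ p.submodule, eval w F = 0}
  add_mem' := by
    intro F G hF hG w hw
    rw [map_add, hF w hw, hG w hw, add_zero]
  zero_mem' := by
    intro w _
    exact map_zero _
  smul_mem' := by
    intro c F hF w hw
    rw [smul_eq_mul, map_mul, hF w hw, mul_zero]

/-- The ideal of the polynomials vanishing to order at least `w i` at the point `P i` for every `i`: the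
intersection of the powers `𝔭_i ^ (w i)`. For `w i = m` this is the `m`-th symbolic power of the ideal of
the points. -/
noncomputable def fatIdeal {n r : ℕ} (w : Fin r → ℕ) (P : Fin r → ℙ ℂ (Fin (n + 1) → ℂ)) :
    Ideal (MvPolynomial (Fin (n + 1)) ℂ) :=
  ⨅ i, primeIdeal (P i) ^ w i

/-- The Hilbert function `dim R_d - dim J_d` of `R / J`. -/
noncomputable def hilbert {n : ℕ} (J : Ideal (MvPolynomial (Fin (n + 1)) ℂ)) (d : ℕ) : ℤ :=
  (Module.finrank ℂ (homogeneousSubmodule (Fin (n + 1)) ℂ d) : ℤ) -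
    Module.finrank ℂ (homogeneousSubmodule (Fin (n + 1)) ℂ d ⊓ Submodule.restrictScalars ℂ J :
      Submodule ℂ (MvPolynomial (Fin (n + 1)) ℂ))

/-- Zariski open subsets of `(ℙⁿ)^r`: those which are defined, in terms of arbitrary homogeneous
coordinates of the points, by the condition that some polynomial of a given set does not vanish. -/
def IsZariskiOpen {n r : ℕ} (U : Set (Fin r → ℙ ℂ (Fin (n + 1) → ℂ))) : Prop :=
  ∃ S : Set (MvPolynomial (Fin r × Fin (n + 1)) ℂ),
    ∀ (v : Fin r → Fin (n + 1) → ℂ) (hv : ∀ i, v i ≠ 0),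
      ((fun i => Projectivization.mk ℂ (v i) (hv i)) ∈ U ↔
        ∃ f ∈ S, eval (fun x : Fin r × Fin (n + 1) => v x.1 x.2) f ≠ 0)

lemma primeIdeal_mk {n : ℕ} (v : Fin (n + 1) → ℂ) (hv : v ≠ 0) (h0 : v 0 ≠ 0) :
    primeIdeal (Projectivization.mk ℂ v hv) = Ideal.span (Set.range fun j : Fin n =>
        (X j.succ - C (v j.succ / v 0) * X 0 : MvPolynomial (Fin (n + 1)) ℂ)) := by
  ext F
  rw [W608.PR.mem_span_iff v h0]
  change (∀ w ∈ (Projectivization.mk ℂ v hv).submodule, eval w F = 0) ↔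
    ∀ t : ℂ, eval (t • v) F = 0
  rw [Projectivization.submodule_mk]
  constructor
  · intro h t
    exact h _ (Submodule.smul_mem _ _ (Submodule.mem_span_singleton_self v))
  · intro h w hw
    obtain ⟨t, rfl⟩ := Submodule.mem_span_singleton.1 hw
    exact h t

lemma eval_scale {n r : ℕ} (t : Fin r → ℂ) (v : Fin r → Fin (n + 1) → ℂ)
    (G : MvPolynomial (Fin r × Fin (n + 1)) ℂ) :
    eval (fun x : Fin r × Fin (n + 1) => v x.1 x.2)
      (aeval (fun x : Fin r × Fin (n + 1) => C (t x.1) * X x) G)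
      = eval (fun x : Fin r × Fin (n + 1) => (t x.1 • v x.1) x.2) G := by
  induction G using MvPolynomial.induction_on with
  | C a => simp [algebraMap_eq]
  | add p q hp hq => rw [map_add, map_add, hp, hq, map_add]
  | mul_X p i hp =>
    rw [map_mul, map_mul, hp, map_mul, aeval_X, map_mul, eval_C, eval_X, eval_X]
    rfl

/-- The passage from emptiness in affine space to the Hilbert function. -/
theorem assembly {E m D r : ℕ} (w : Fin r → ℕ) (hm : 1 ≤ m) (hw : ∀ i, w i ≤ m)
    (hG : W608.PR.G ℂ E m D) :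
    ∃ U : Set (Fin r → ℙ ℂ (Fin (E + 1 + 1) → ℂ)), IsZariskiOpen U ∧ U.Nonempty ∧
      ∀ P ∈ U, ∀ d : ℕ,
        (D ≤ d ∨ (E + 1 + D).choose (E + 1) ≤ ∑ i, (E + 1 + w i - 1).choose (E + 1)) →
        hilbert (fatIdeal w P) d =
          min ((E + 1 + d).choose (E + 1) : ℤ) (∑ i, ((E + 1 + w i - 1).choose (E + 1) : ℤ)) := by
  obtain ⟨F, hF, hF'⟩ := W608.PR.all_degrees hm hG w hw
  obtain ⟨N, Φ0, hΦ0⟩ := W608.PR.exists_homog F
  obtain ⟨Φ, hΦdef⟩ : ∃ Φ, Φ = Φ0 * ∏ k : Fin r, X (k, (0 : Fin (E + 1 + 1))) := ⟨_, rfl⟩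
  have hΦ1 : ∀ v : Fin r → Fin (E + 1 + 1) → ℂ,
      eval (fun x : Fin r × Fin (E + 1 + 1) => v x.1 x.2) Φ ≠ 0 →
      (∀ i, v i 0 ≠ 0) ∧
        eval (fun x : Fin r × Fin (E + 1) => v x.1 x.2.succ / v x.1 0) F ≠ 0 := by
    intro v hv
    rw [hΦdef, map_mul, map_prod] at hv
    have h1 : ∀ i, v i 0 ≠ 0 := by
      intro i
      have h2 := Finset.prod_ne_zero_iff.1 (right_ne_zero_of_mul hv) i (Finset.mem_univ i)
      rwa [eval_X] at h2
    refine ⟨h1, ?_⟩
    have h2 := left_ne_zero_of_mul hv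
    rw [hΦ0 v h1] at h2
    exact right_ne_zero_of_mul h2
  obtain ⟨Q, hQ⟩ : ∃ Q : Fin r × Fin (E + 1) → ℂ, eval Q F ≠ 0 := by
    by_contra hcon
    push Not at hcon
    exact hF (MvPolynomial.funext fun w => by rw [hcon w, map_zero])
  refine ⟨{P | ∃ (v : Fin r → Fin (E + 1 + 1) → ℂ) (hv : ∀ i, v i ≠ 0),
    (∀ i, Projectivization.mk ℂ (v i) (hv i) = P i) ∧
      eval (fun x : Fin r × Fin (E + 1 + 1) => v x.1 x.2) Φ ≠ 0}, ?_, ?_, ?_⟩
  · -- openness
    refine ⟨{f | ∃ t : Fin r → ℂ, (∀ i, t i ≠ 0) ∧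
      f = aeval (fun x : Fin r × Fin (E + 1 + 1) => C (t x.1) * X x) Φ}, ?_⟩
    intro v hv
    constructor
    · rintro ⟨v', hv', h1, h2⟩
      have h3 : ∀ i, ∃ t : ℂ, t • v i = v' i := fun i =>
        (Projectivization.mk_eq_mk_iff' ℂ _ _ _ _).1 (h1 i)
      choose t ht using h3
      have ht0 : ∀ i, t i ≠ 0 := by
        intro i h0
        apply hv' i
        rw [← ht i, h0, zero_smul]
      refine ⟨_, ⟨t, ht0, rfl⟩, ?_⟩
      rw [eval_scale]
      simpa only [ht] using h2
    · rintro ⟨f, ⟨t, ht0, rfl⟩, h2⟩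
      rw [eval_scale] at h2
      refine ⟨fun i => t i • v i, fun i => smul_ne_zero (ht0 i) (hv i), fun i => ?_, h2⟩
      rw [Projectivization.mk_eq_mk_iff']
      exact ⟨t i, rfl⟩
  · -- nonempty
    let v : Fin r → Fin (E + 1 + 1) → ℂ := fun i => Fin.cons 1 (fun j => Q (i, j))
    have hv0 : ∀ i, v i 0 = 1 := fun i => rfl
    have hv : ∀ i, v i ≠ 0 := fun i h0 => one_ne_zero ((hv0 i).symm.trans (congrFun h0 0))
    refine ⟨fun i => Projectivization.mk ℂ (v i) (hv i), v, hv, fun i => rfl, ?_⟩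
    rw [hΦdef, map_mul, map_prod, hΦ0 v fun i => by rw [hv0]; exact one_ne_zero]
    simp only [eval_X, hv0, Finset.prod_const_one, one_pow, one_mul, mul_one, div_one]
    exact hQ
  · -- the value
    rintro P ⟨v, hv, h1, h2⟩ d hd
    obtain ⟨h3, h4⟩ := hΦ1 v h2
    have h5 : fatIdeal w P = ⨅ i, (H932R5.hI (K := ℂ) fun j : Fin (E + 1) =>
        v i j.succ / v i 0) ^ w i := by
      unfold fatIdeal
      refine iInf_congr fun i => ?_
      rw [← h1 i, primeIdeal_mk _ _ (h3 i)]
      rfl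
    have e0 : ∀ i, E + 1 + w i - 1 = w i + E := fun i => by omega
    simp only [e0] at hd ⊢
    rw [show E + 1 + D = D + E + 1 by ring] at hd
    obtain ⟨h6, h7⟩ := hF' (fun i j => v i j.succ / v i 0) h4 d hd
    unfold hilbert
    rw [h5]
    change (Module.finrank ℂ (homogeneousSubmodule (Fin (E + 2)) ℂ d) : ℤ) -
      Module.finrank ℂ ↥(H932R5.Vd (K := ℂ) (E := E) d w
        fun i j => v i j.succ / v i 0) = _
    rw [W608.PR.finrank_homog, show E + 1 + d = d + E + 1 by ring]
    rcases Nat.le_total ((d + E + 1).choose (E + 1)) (∑ i, (w i + E).choose (E + 1)) with h | h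
    · rw [(h6 h).finrank, Nat.cast_zero, sub_zero, min_eq_left]
      exact_mod_cast h
    · have h8 := (h7 h).finrank
      rw [min_eq_right (by exact_mod_cast h), ← h8]
      push_cast
      ring

/-- **Main result.** Let `n ≥ 3`, `m ≥ 1` and `n ^ (2 n) * m ^ (2 n - 2) ≤ D ^ (n - 2)`. For `r` general
points of `ℙⁿ` with arbitrary multiplicities `w i ≤ m` the value of the Hilbert function of
`R / ⋂ 𝔭_i ^ (w i)` in the degree `d` is `min (binom (n + d) n) (∑ binom (n + w i - 1) n)` for all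
`d ≥ D`, and for all `d` if `∑ binom (n + w i - 1) n ≥ binom (n + D) n`. One nonempty Zariski open set
of `r`-tuples of points serves for all the degrees. -/
theorem result (n m D r : ℕ) (w : Fin r → ℕ) (hn : 3 ≤ n)
    (hm : 1 ≤ m) (hw : ∀ i, w i ≤ m) (hD : n ^ (2 * n) * m ^ (2 * n - 2) ≤ D ^ (n - 2)) :
    ∃ U : Set (Fin r → ℙ ℂ (Fin (n + 1) → ℂ)), IsZariskiOpen U ∧ U.Nonempty ∧
      ∀ P ∈ U, ∀ d : ℕ,
        (D ≤ d ∨ (n + D).choose n ≤ ∑ i, (n + w i - 1).choose n) →
        hilbert (fatIdeal w P) d =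
          min ((n + d).choose n : ℤ) (∑ i, ((n + w i - 1).choose n : ℤ)) := by
  obtain ⟨E, rfl⟩ : ∃ E, n = E + 2 := ⟨n - 2, by omega⟩
  rw [show 2 * (E + 2) - 2 = 2 * E + 2 by omega, show E + 2 - 2 = E by omega] at hD
  open Pool.Agent.H55.FE in
  exact assembly (E := E + 1) w hm hw (gs (tP hvp) (tN hvn) (cNN hvn) (mk (e1 tl) e2) num
    E m D (by omega) hm hD)

end Pool.Agent.Results.MP_b56c98_ag.EffectiveEveryDimension
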